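import Pool.Agent.H906.BD.S.Defs

/-! # S04 Torus: quotients of tori are special, and Brody-special

(1) `torus_special`: `U` is the whole space and `Δ` contains the translations by the elements of a lattice `L`.
Then `X` has no Bogomolov sheaf. Proof: for a tensor form `s` and fixed `v` the function `x ↦ s x v` is entire and invariant
under the translations by `L` (`invariant` for `δ` with `ρ δ x = x + u` for all `x`: `fderiv ℂ (ρ δ) x = id`). It is bounded: every
point of `ℂ^N` is, modulo `L`, in a bounded set (`L` spans over `ℝ`: there is a real basis consisting of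
elements of `L`, take integral parts of coordinates; or `ZSpan.fundamentalDomain`), and continuous
functions are bounded on compact sets. By Liouville (`Differentiable.apply_eq_apply_of_bounded`) it is constant. So the
functions `s i.succ x v₀ / s 0 x v₀` are constant, their `fderiv` vanishes, and a zero family indexed by `Fin p`, `1 ≤ p`, is
not linearly independent.
(2) `torus_brody`: with an entire curve `f` with dense image in `ℂ^N` (hypothesis `hf`): analytic subsets of `univ` are
closed: the complement is open because near a point `x ∉ S` some `F i y ≠ 0` (continuity on `V`). So an analytic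
subset containing `range f` is everything, so the Zariski closure is `univ`. (General `U = univ`.) -/

set_option linter.unusedSectionVars false

open Filter Topology Set Metric

namespace Pool.Agent.H906.BD.S

variable {N : Type*} [Fintype N] [DecidableEq N] {Δ : Type*} [Group Δ]

/-- a real basis which consists of elements of the lattice -/
theorem storus_basis {L : AddSubgroup (N → ℂ)} (hL : IsLattice L) :
    ∃ (t : Set (N → ℂ)) (_ : Fintype t) (b : Module.Basis t ℝ (N → ℂ)), ∀ i, b i ∈ L := by
  obtain ⟨t, htL, hts, hti⟩ := exists_linearIndependent ℝ (L : Set (N → ℂ))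
  have hsp : ⊤ ≤ Submodule.span ℝ (range ((↑) : t → (N → ℂ))) := by
    rw [Subtype.range_coe, hts, hL.span]
  have hfin : Finite t := hti.finite
  refine ⟨t, Fintype.ofFinite t, Module.Basis.mk hti hsp, fun i => ?_⟩
  rw [Module.Basis.mk_apply]
  exact htL i.2

/-- a periodic entire function is constant -/
theorem storus_const {L : AddSubgroup (N → ℂ)} (hL : IsLattice L) {g : (N → ℂ) → ℂ}
    (hg : Differentiable ℂ g) (hp : ∀ v ∈ L, ∀ x, g (x + v) = g x) (x y : N → ℂ) : g x = g y := by
  obtain ⟨t, _, b, hb⟩ := storus_basis hL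
  refine hg.apply_eq_apply_of_bounded ?_ x y
  obtain ⟨R, hR⟩ : ∃ R : ℝ, R = ∑ i, ‖b i‖ := ⟨_, rfl⟩
  have hc : IsCompact (g '' closedBall (0 : N → ℂ) R) :=
    (isCompact_closedBall _ _).image hg.continuous
  refine hc.isBounded.subset ?_
  rintro _ ⟨z, rfl⟩
  refine ⟨ZSpan.fract b z, ?_, ?_⟩
  · rw [mem_closedBall_zero_iff, hR]
    exact ZSpan.norm_fract_le b z
  · have hmem : ((ZSpan.floor b z : Submodule.span ℤ (range b)) : N → ℂ) ∈ L := by
      have h1 : Submodule.span ℤ (range b) ≤ AddSubgroup.toIntSubmodule L := by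
        rw [Submodule.span_le]
        rintro _ ⟨i, rfl⟩
        exact hb i
      exact h1 (ZSpan.floor b z).2
    have h2 := hp _ hmem (ZSpan.fract b z)
    rw [← h2, ZSpan.fract_apply, sub_add_cancel]

theorem torus_special {ρ : Δ → (N → ℂ) → (N → ℂ)} {L : AddSubgroup (N → ℂ)} (hL : IsLattice L)
    (h : ∀ v ∈ L, ∃ δ, ∀ x, ρ δ x = x + v) : IsSpecial univ ρ := by
  rintro p ⟨hp, m, -, s, c, ω, hs, -, x₀, -, v₀, -, hli⟩
  have hconst : ∀ i x, s i x v₀ = s i x₀ v₀ := by
    intro i x
    refine storus_const hL (g := fun x => s i x v₀) (differentiableOn_univ.mp ((hs i).hol v₀)) ?_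
      x x₀
    intro v hv x
    obtain ⟨δ, hδ⟩ := h v hv
    have h1 := (hs i).invariant δ x (mem_univ x) v₀
    have h2 : ρ δ = fun x => x + v := funext hδ
    rw [h2] at h1
    have h3 : fderiv ℂ (fun x : N → ℂ => x + v) x = ContinuousLinearMap.id ℂ (N → ℂ) := by
      rw [fderiv_add_const]
      exact fderiv_fun_id
    rw [h3] at h1
    exact h1
  have hne := hli.ne_zero (⟨0, by omega⟩ : Fin p)
  apply hne
  have h4 : (fun x => s (Fin.succ (⟨0, by omega⟩ : Fin p)) x v₀ / s 0 x v₀) =
      fun _ => s (Fin.succ (⟨0, by omega⟩ : Fin p)) x₀ v₀ / s 0 x₀ v₀ := by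
    funext x
    rw [hconst, hconst 0 x]
  rw [h4]
  exact fderiv_const_apply _

/-- analytic subsets are closed -/
theorem storus_closed {ρ : Δ → (N → ℂ) → (N → ℂ)} {S : Set (N → ℂ)} (hS : IsAnalytic univ ρ S) :
    IsClosed S := by
  rw [← isOpen_compl_iff, isOpen_iff_mem_nhds]
  intro x hx
  obtain ⟨V, hVo, hxV, -, n, F, hF, hFS⟩ := hS.equations x (mem_univ x)
  have h1 : ∃ i, F i x ≠ 0 := by
    by_contra hc
    push Not at hc
    exact hx ((hFS x hxV).mpr hc)
  obtain ⟨i, hi⟩ := h1
  have hV : V ∈ 𝓝 x := hVo.mem_nhds hxV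
  have h2 : ContinuousAt (F i) x := (hF i).continuousOn.continuousAt hV
  filter_upwards [hV, h2.eventually_ne hi] with y hy hy2 hyS
  exact hy2 ((hFS y hy).mp hyS i)

theorem torus_brody {ρ : Δ → (N → ℂ) → (N → ℂ)} {f : ℂ → (N → ℂ)} (hf : Differentiable ℂ f)
    (hd : DenseRange f) : IsBrodySpecial univ ρ := by
  refine ⟨f, ⟨hf, fun _ => mem_univ _⟩, eq_univ_of_forall fun x => ⟨mem_univ x, fun S hS hfS => ?_⟩⟩
  have h1 : closure (range f) ⊆ S := (storus_closed hS).closure_subset_iff.mpr hfS
  exact h1 (hd x)

end Pool.Agent.H906.BD.S
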