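import Pool.Agent.H906.BD.S.Defs
import Pool.Agent.H906.BD.Struct
import Pool.Agent.H906.BD.Contra

/-! # S01 Base: the action on the bounded factor

(1) `base_action`: every action of a group by holomorphic maps on `D × ℂ^B`, `D` bounded, induces an action
on `D`. Proof: for `z ∈ D` the map `w ↦ prA (ρ δ (z, w))` is bounded and holomorphic on `ℂ^B`, so constant by Liouville
(see `struct_fibre` in `BD/Struct.lean`). Put `σ δ z = prA (ρ δ (Sum.elim z 0))`. It is holomorphic, maps `D` to `D`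
and `HolAct.one`, `HolAct.mul` follow from `prA (ρ δ x) = σ δ (prA x)` for all `x ∈ Tot D B`.
(2) `pd_extend`: if the elements of a subgroup `Δ0` of finite index act on `D` in a properly discontinuous way
modulo the elements acting trivially, then so do all elements. Proof: let `R` be a finite set of elements
with `Δ = ⋃_{q ∈ R} q Δ0` (`Subgroup.FiniteIndex`, `Quotient.out` as in `abundance`, `BD/Final.lean`). For `K` compact in
`D` let `K' = K ∪ ⋃_q σ q⁻¹ '' K`, compact in `D`, and `T` for `K'`, `Δ0` from the hypothesis. If `z ∈ K`, `σ δ z ∈ K`, `δ = q γ`,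
`γ ∈ Δ0`, then `σ γ z = σ q⁻¹ (σ δ z) ∈ K'`, so `σ γ = σ t` on `D` with `t ∈ T`, so `σ δ = σ (q t)` on `D`.
(3) `exists_generic`: there is a point of `D` which is only fixed by elements acting trivially. Proof: take a
closed ball `K ⊆ D` of positive radius and `T` for `K` from the hypothesis. If `z ∈ K` and `σ γ z = z` then `σ γ = σ t`, `t ∈ T`. For
`t ∈ T` with `σ t ≠ id` on `D` the closed (in `D`) set `{z | σ t z = z}` has empty interior by the identity theorem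
(`identity`, `BD/Hol.lean`; `D` preconnected); the open ball is not covered by finitely many closed sets with empty
interior. -/

set_option linter.unusedSectionVars false

open Filter Topology Set Metric

namespace Pool.Agent.H906.BD.S

variable {A B : Type*} [Fintype A] [Fintype B] [DecidableEq A] [DecidableEq B]
variable {Δ : Type*} [Group Δ]

/-- restriction of the fixed-point sets: finitely many nontrivial elements move all points of some
nonempty open subset -/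
theorem sbase_open {D : Set (A → ℂ)} (hD : IsOpen D) (hc : IsPreconnected D)
    {σ : Δ → (A → ℂ) → (A → ℂ)} (hσ : HolAct D σ) (T : Finset Δ) :
    (∀ t ∈ T, ¬ Triv D σ t) → ∀ W : Set (A → ℂ), IsOpen W → W.Nonempty → W ⊆ D →
      ∃ V : Set (A → ℂ), IsOpen V ∧ V.Nonempty ∧ V ⊆ W ∧ ∀ t ∈ T, ∀ z ∈ V, σ t z ≠ z := by
  classical
  induction T using Finset.induction_on with
  | empty =>
    intro _ W hW hWne _
    exact ⟨W, hW, hWne, subset_rfl, fun t ht => absurd ht (Finset.notMem_empty t)⟩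
  | insert t T _ ih =>
    intro hT W hW hWne hWD
    obtain ⟨V, hV, hVne, hVW, hVT⟩ := ih (fun s hs => hT s (Finset.mem_insert_of_mem hs)) W hW hWne hWD
    have hVD : V ⊆ D := hVW.trans hWD
    have hcont : ContinuousOn (fun z => σ t z - z) V :=
      ((hσ.hol t).continuousOn.mono hVD).sub continuousOn_id
    have hopen : IsOpen (V ∩ (fun z => σ t z - z) ⁻¹' {0}ᶜ) :=
      hcont.isOpen_inter_preimage hV isOpen_compl_singleton
    have hne : (V ∩ (fun z => σ t z - z) ⁻¹' {0}ᶜ).Nonempty := by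
      by_contra hemp
      rw [not_nonempty_iff_eq_empty] at hemp
      obtain ⟨z₀, hz₀⟩ := hVne
      apply hT t (Finset.mem_insert_self t T)
      have h1 : ∀ᶠ z in 𝓝 z₀, σ t z - z = 0 := by
        filter_upwards [hV.mem_nhds hz₀] with z hz
        by_contra hzne
        have h2 : z ∈ V ∩ (fun z => σ t z - z) ⁻¹' {0}ᶜ := ⟨hz, hzne⟩
        rw [hemp] at h2
        exact h2
      have h2 := identity hD hc (f := fun z => σ t z - z)
        ((hσ.hol t).sub differentiableOn_id) (hVD hz₀) h1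
      intro z hz
      exact sub_eq_zero.1 (h2 z hz)
    refine ⟨_, hopen, hne, inter_subset_left.trans hVW, fun s hs z hz => ?_⟩
    rcases Finset.mem_insert.1 hs with rfl | hs
    · intro h
      exact hz.2 (sub_eq_zero.2 h)
    · exact hVT s hs z hz.1

theorem base_action {D : Set (A → ℂ)} (hD : IsOpen D) {R : ℝ} (hR : ∀ z ∈ D, ‖z‖ ≤ R)
    {ρ : Δ → (A ⊕ B → ℂ) → (A ⊕ B → ℂ)} (hρ : HolAct (Tot D B) ρ) :
    ∃ σ : Δ → (A → ℂ) → (A → ℂ), HolAct D σ ∧ ∀ δ, ∀ x ∈ Tot D B, prA (ρ δ x) = σ δ (prA x) := by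
  have hfib : ∀ γ, ∀ x ∈ Tot D B, ∀ y, prA x = prA y → prA (ρ γ x) = prA (ρ γ y) :=
    fun γ x hx y hxy => struct_fibre hD hR (hρ.hol γ) (hρ.maps γ) hx hxy
  have hel : ∀ z ∈ D, (Sum.elim z 0 : A ⊕ B → ℂ) ∈ Tot D B := fun z hz => hz
  refine ⟨fun γ z => prA (ρ γ (Sum.elim z 0)), ⟨?_, ?_, ?_, ?_⟩, ?_⟩
  · intro γ z hz
    exact hρ.maps γ _ (hel z hz)
  · intro z hz
    rw [hρ.one _ (hel z hz)]
    rfl
  · intro γ δ z hz
    rw [hρ.mul γ δ _ (hel z hz)]
    exact hfib γ _ (hρ.maps δ _ (hel z hz)) _ rfl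
  · intro γ z hz
    have h1 : DifferentiableAt ℂ (fun z : A → ℂ => (Sum.elim z 0 : A ⊕ B → ℂ)) z := by
      rw [differentiableAt_pi]
      intro l
      rcases l with i | j
      · exact differentiableAt_apply i z
      · exact differentiableAt_const _
    have h2 := (hρ.hol γ).differentiableAt ((struct_isOpen hD).mem_nhds (hel z hz))
    have h3 := h2.comp z h1
    have h4 : DifferentiableAt ℂ (fun z => prA (ρ γ (Sum.elim z 0 : A ⊕ B → ℂ))) z := by
      rw [differentiableAt_pi]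
      intro i
      exact (differentiableAt_pi.1 h3) (Sum.inl i)
    exact h4.differentiableWithinAt
  · intro γ x hx
    exact hfib γ x hx _ rfl

theorem pd_extend {D : Set (A → ℂ)} (hD : IsOpen D) {σ : Δ → (A → ℂ) → (A → ℂ)}
    (hσ : HolAct D σ) {Δ0 : Subgroup Δ} (hfi : Δ0.FiniteIndex)
    (h : ∀ K ⊆ D, IsCompact K → ∃ T : Finset Δ, ∀ γ ∈ Δ0, (∃ z ∈ K, σ γ z ∈ K) →
      ∃ t ∈ T, ∀ z ∈ D, σ γ z = σ t z) :
    ∀ K ⊆ D, IsCompact K → ∃ T : Finset Δ, ∀ γ, (∃ z ∈ K, σ γ z ∈ K) →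
      ∃ t ∈ T, ∀ z ∈ D, σ γ z = σ t z := by
  classical
  intro K hKD hK
  have hfin : Finite (Δ ⧸ Δ0) := inferInstance
  have hft : Fintype (Δ ⧸ Δ0) := Fintype.ofFinite _
  obtain ⟨K', hK'⟩ : ∃ K' : Set (A → ℂ), K' = K ∪ ⋃ c : Δ ⧸ Δ0, σ (c.out)⁻¹ '' K := ⟨_, rfl⟩
  have hK'D : K' ⊆ D := by
    rw [hK']
    refine union_subset hKD (iUnion_subset fun c => ?_)
    rintro _ ⟨z, hz, rfl⟩
    exact hσ.maps _ _ (hKD hz)
  have hK'c : IsCompact K' := by
    rw [hK']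
    refine hK.union (isCompact_iUnion fun c => ?_)
    exact hK.image_of_continuousOn ((hσ.hol _).continuousOn.mono hKD)
  obtain ⟨T, hT⟩ := h K' hK'D hK'c
  refine ⟨((Finset.univ : Finset (Δ ⧸ Δ0)) ×ˢ T).image fun p => p.1.out * p.2, ?_⟩
  rintro γ ⟨z, hz, hγz⟩
  obtain ⟨q, hq⟩ : ∃ q : Δ, q = (QuotientGroup.mk γ : Δ ⧸ Δ0).out := ⟨_, rfl⟩
  obtain ⟨γ0, hγ0⟩ : ∃ γ0 : Δ, γ0 = q⁻¹ * γ := ⟨_, rfl⟩
  have hmem : γ0 ∈ Δ0 := by
    rw [hγ0, ← QuotientGroup.eq, hq, QuotientGroup.out_eq']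
  have hγ : γ = q * γ0 := by rw [hγ0, mul_inv_cancel_left]
  have h1 : σ γ0 z ∈ K' := by
    rw [hγ0, hσ.mul _ _ _ (hKD hz), hK']
    refine Or.inr (mem_iUnion.2 ⟨QuotientGroup.mk γ, ?_⟩)
    rw [← hq]
    exact mem_image_of_mem _ hγz
  have h2 : z ∈ K' := by
    rw [hK']
    exact Or.inl hz
  obtain ⟨t, ht, htz⟩ := hT γ0 hmem ⟨z, h2, h1⟩
  refine ⟨q * t, ?_, fun w hw => ?_⟩
  · rw [Finset.mem_image]
    exact ⟨(QuotientGroup.mk γ, t), Finset.mem_product.2 ⟨Finset.mem_univ _, ht⟩, by rw [hq]⟩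
  · rw [hγ, hσ.mul _ _ _ hw, hσ.mul _ _ _ hw, htz w hw]

theorem exists_generic {D : Set (A → ℂ)} (hD : IsOpen D) (hc : IsPreconnected D)
    (hne : D.Nonempty) {σ : Δ → (A → ℂ) → (A → ℂ)} (hσ : HolAct D σ)
    (h : ∀ K ⊆ D, IsCompact K → ∃ T : Finset Δ, ∀ γ, (∃ z ∈ K, σ γ z ∈ K) →
      ∃ t ∈ T, ∀ z ∈ D, σ γ z = σ t z) :
    ∃ z₀ ∈ D, ∀ γ, σ γ z₀ = z₀ → Triv D σ γ := by
  classical
  obtain ⟨z₁, hz₁⟩ := hne
  obtain ⟨r, hr, hrD⟩ := Metric.nhds_basis_closedBall.mem_iff.1 (hD.mem_nhds hz₁)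
  obtain ⟨T, hT⟩ := h _ hrD (isCompact_closedBall z₁ r)
  obtain ⟨V, hV, ⟨z₀, hz₀⟩, hVW, hVT⟩ := sbase_open hD hc hσ (T.filter fun t => ¬ Triv D σ t)
    (fun t ht => (Finset.mem_filter.1 ht).2) (ball z₁ r) isOpen_ball ⟨z₁, mem_ball_self hr⟩
    (ball_subset_closedBall.trans hrD)
  have hz₀b : z₀ ∈ closedBall z₁ r := ball_subset_closedBall (hVW hz₀)
  refine ⟨z₀, hrD hz₀b, fun γ hγ => ?_⟩
  obtain ⟨t, ht, htz⟩ := hT γ ⟨z₀, hz₀b, by rw [hγ]; exact hz₀b⟩
  by_cases htt : Triv D σ t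
  · intro z hz
    rw [htz z hz, htt z hz]
  · exfalso
    apply hVT t (Finset.mem_filter.2 ⟨ht, htt⟩) z₀ hz₀
    rw [← htz z₀ (hrD hz₀b), hγ]

end Pool.Agent.H906.BD.S
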