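import Pool.Agent.H906.BD.Setup

/-! # Special manifolds, entire curves and tori in quotients `X = U / Δ`

`U` is an open subset of `ℂ^N` and the group `Δ` acts on it by holomorphic maps `ρ δ`, freely,
properly discontinuously and with compact quotient `X`. Since `ℂ` and `ℂ^g` are simply connected,
holomorphic maps from `ℂ` to `X` are given by holomorphic maps from `ℂ` to `U`. -/

open Filter Topology Set

namespace Pool.Agent.H906.BD.S

variable {N : Type*} [Fintype N] [DecidableEq N] {Δ : Type*} [Group Δ]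

/-- `s` is a holomorphic section of the bundle `(Ω^p_X)^{⊗ m}`: `s x v` is its value at `x` on the
tangent vectors `v k i`, `k < m`, `i < p`. -/
structure IsTensorForm (U : Set (N → ℂ)) (ρ : Δ → (N → ℂ) → (N → ℂ)) (p m : ℕ)
    (s : (N → ℂ) → (Fin m → Fin p → (N → ℂ)) → ℂ) : Prop where
  hol : ∀ v, DifferentiableOn ℂ (fun x => s x v) U
  invariant : ∀ δ, ∀ x ∈ U, ∀ v, s (ρ δ x) (fun k i => fderiv ℂ (ρ δ) x (v k i)) = s x v

/-- `X` has a Bogomolov sheaf in degree `p ≥ 1`: a saturated subsheaf `L` of rank one of `Ω^p_X` with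
Iitaka dimension `p`. Explicitly: there are `p + 1` sections `s_0, ..., s_p` of some power
`L^m ⊆ (Ω^p_X)^{⊗ m}`, `m ≥ 1`, such that the `p` meromorphic functions `s_i / s_0` have linearly
independent differentials at some point. The sections belong to a power `L^m` of a subsheaf `L` of
rank one if and only if at every point `x` they are multiples of `ω ⊗ ... ⊗ ω` for one alternating
form `ω = ω x` of degree `p`. -/
def HasBogomolovSheaf (U : Set (N → ℂ)) (ρ : Δ → (N → ℂ) → (N → ℂ)) (p : ℕ) : Prop :=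
  1 ≤ p ∧ ∃ m : ℕ, 1 ≤ m ∧ ∃ (s : Fin (p + 1) → (N → ℂ) → (Fin m → Fin p → (N → ℂ)) → ℂ)
    (c : Fin (p + 1) → (N → ℂ) → ℂ) (ω : (N → ℂ) → (N → ℂ) [⋀^Fin p]→ₗ[ℂ] ℂ),
    (∀ i, IsTensorForm U ρ p m (s i)) ∧
    (∀ i, ∀ x ∈ U, ∀ v, s i x v = c i x * ∏ k, ω x (v k)) ∧
    ∃ x₀ ∈ U, ∃ v₀, s 0 x₀ v₀ ≠ 0 ∧
      LinearIndependent ℂ fun i : Fin p => fderiv ℂ (fun x => s i.succ x v₀ / s 0 x v₀) x₀

/-- `X` is special (Campana): it has no Bogomolov sheaf. -/
def IsSpecial (U : Set (N → ℂ)) (ρ : Δ → (N → ℂ) → (N → ℂ)) : Prop :=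
  ∀ p, ¬ HasBogomolovSheaf U ρ p

/-- `S / Δ` is a closed analytic subset of `X` (by Chow's theorem, a Zariski closed subset if `X` is
projective): `S` is invariant and locally the set of common zeros of finitely many holomorphic
functions. -/
structure IsAnalytic (U : Set (N → ℂ)) (ρ : Δ → (N → ℂ) → (N → ℂ)) (S : Set (N → ℂ)) : Prop where
  sub : S ⊆ U
  invariant : ∀ δ, ∀ x ∈ S, ρ δ x ∈ S
  equations : ∀ x ∈ U, ∃ V : Set (N → ℂ), IsOpen V ∧ x ∈ V ∧ V ⊆ U ∧
    ∃ (n : ℕ) (F : Fin n → (N → ℂ) → ℂ), (∀ i, DifferentiableOn ℂ (F i) V) ∧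
      ∀ y ∈ V, (y ∈ S ↔ ∀ i, F i y = 0)

/-- the Zariski closure of (the image of) `E` in `X`: the points which belong to all closed analytic
subsets containing `E` -/
def zariskiClosure (U : Set (N → ℂ)) (ρ : Δ → (N → ℂ) → (N → ℂ)) (E : Set (N → ℂ)) :
    Set (N → ℂ) :=
  {x | x ∈ U ∧ ∀ S, IsAnalytic U ρ S → E ⊆ S → x ∈ S}

/-- `f : ℂ → U` is holomorphic; it gives a holomorphic map from `ℂ` to `X`. -/
def IsEntire (U : Set (N → ℂ)) (f : ℂ → (N → ℂ)) : Prop := Differentiable ℂ f ∧ ∀ t, f t ∈ U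

/-- `X` is Brody-special: there is an entire curve with Zariski dense image. -/
def IsBrodySpecial (U : Set (N → ℂ)) (ρ : Δ → (N → ℂ) → (N → ℂ)) : Prop :=
  ∃ f, IsEntire U f ∧ zariskiClosure U ρ (range f) = U

/-- `x` and `y` are in the Zariski closure of the image of one holomorphic map `ℂ → X` -/
def Linked (U : Set (N → ℂ)) (ρ : Δ → (N → ℂ) → (N → ℂ)) (x y : N → ℂ) : Prop :=
  ∃ f, IsEntire U f ∧ x ∈ zariskiClosure U ρ (range f) ∧ y ∈ zariskiClosure U ρ (range f)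

/-- the covering `U × U` of `X × X` -/
def Two (U : Set (N → ℂ)) : Set (N ⊕ N → ℂ) := {x | x ∘ Sum.inl ∈ U ∧ x ∘ Sum.inr ∈ U}

/-- the action of `Δ × Δ` on `U × U` -/
def twoAct (ρ : Δ → (N → ℂ) → (N → ℂ)) (δ : Δ × Δ) (x : N ⊕ N → ℂ) : N ⊕ N → ℂ :=
  Sum.elim (ρ δ.1 (x ∘ Sum.inl)) (ρ δ.2 (x ∘ Sum.inr))

/-- `X` is h-special: the set of the pairs `(x, y)` which are connected by a finite chain of Zariski
closures of images of holomorphic maps `ℂ → X`, consecutive ones with nonempty intersection, is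
Zariski dense in `X × X`. -/
def IsHSpecial (U : Set (N → ℂ)) (ρ : Δ → (N → ℂ) → (N → ℂ)) : Prop :=
  zariskiClosure (Two U) (twoAct ρ)
    {x | Relation.TransGen (Linked U ρ) (x ∘ Sum.inl) (x ∘ Sum.inr)} = Two U

/-- `L` is a lattice of `ℂ^g`: discrete and of maximal rank. -/
structure IsLattice {G : Type*} [Fintype G] (L : AddSubgroup (G → ℂ)) : Prop where
  discrete : ∀ r : ℝ, {v : G → ℂ | v ∈ L ∧ ‖v‖ ≤ r}.Finite
  span : Submodule.span ℝ (L : Set (G → ℂ)) = ⊤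

/-- `F` gives a holomorphic map from the complex torus `ℂ^g / L` to `X`. -/
structure IsTorusMap (U : Set (N → ℂ)) (ρ : Δ → (N → ℂ) → (N → ℂ)) {G : Type*} [Fintype G]
    (L : AddSubgroup (G → ℂ)) (F : (G → ℂ) → (N → ℂ)) : Prop where
  lattice : IsLattice L
  hol : Differentiable ℂ F
  mem : ∀ w, F w ∈ U
  periodic : ∀ v ∈ L, ∃ δ, ∀ w, F (w + v) = ρ δ (F w)

end Pool.Agent.H906.BD.S
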