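import Pool.Agent.H906.BD.S.Defs

/-! # S03 Dense: an entire curve with dense image in `ℂ^B`

Proof. Let `q_k` be a sequence in `B → ℂ` in which every member of a dense sequence occurs infinitely
often. Let `x_k` be real numbers with `|x_j - x_k| ≥ 1 + max (j, k) + ‖q_k‖` for `j ≠ k`, and
`f t = ∑_k exp (-(t - x_k) ^ 2) • q_k`. The series converges uniformly on discs, and
`f (x_k) - q_k` tends to zero. -/

open Filter Topology Set Metric

namespace Pool.Agent.H906.BD.S

/-- the increments -/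
noncomputable def sdense_a {E : Type*} [NormedAddCommGroup E] (q : ℕ → E) (k : ℕ) : ℝ :=
  1 + k + ∑ i ∈ Finset.range (k + 1), ‖q i‖

/-- the points -/
noncomputable def sdense_x {E : Type*} [NormedAddCommGroup E] (q : ℕ → E) (k : ℕ) : ℝ :=
  ∑ i ∈ Finset.range (k + 1), sdense_a q i

theorem sdense_a_ge {E : Type*} [NormedAddCommGroup E] (q : ℕ → E) {j k : ℕ} (h : k ≤ j) :
    1 + j + ‖q k‖ ≤ sdense_a q j := by
  unfold sdense_a
  have h1 := Finset.single_le_sum (f := fun i => ‖q i‖) (fun i _ => norm_nonneg _)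
    (Finset.mem_range.2 (Nat.lt_succ_of_le h))
  linarith

theorem sdense_a_pos {E : Type*} [NormedAddCommGroup E] (q : ℕ → E) (j : ℕ) :
    1 ≤ sdense_a q j := by
  have h := sdense_a_ge q (le_refl j)
  have h1 : (0 : ℝ) ≤ j := Nat.cast_nonneg j
  have h2 := norm_nonneg (q j)
  linarith

theorem sdense_x_mono {E : Type*} [NormedAddCommGroup E] (q : ℕ → E) {j k : ℕ} (h : k ≤ j) :
    sdense_x q k ≤ sdense_x q j :=
  Finset.sum_le_sum_of_subset_of_nonneg (Finset.range_subset_range.2 (by omega))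
    fun i _ _ => by linarith [sdense_a_pos q i]

theorem sdense_x_ge {E : Type*} [NormedAddCommGroup E] (q : ℕ → E) (k : ℕ) :
    sdense_a q k ≤ sdense_x q k :=
  Finset.single_le_sum (f := sdense_a q) (fun i _ => by linarith [sdense_a_pos q i])
    (Finset.self_mem_range_succ k)

theorem sdense_x_sub {E : Type*} [NormedAddCommGroup E] (q : ℕ → E) {j k : ℕ} (h : k < j) :
    sdense_a q j ≤ sdense_x q j - sdense_x q k := by
  obtain ⟨i, rfl⟩ : ∃ i, j = i + 1 := ⟨j - 1, by omega⟩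
  have h1 := sdense_x_mono q (show k ≤ i by omega)
  have h2 : sdense_x q (i + 1) = sdense_x q i + sdense_a q (i + 1) := by
    unfold sdense_x
    rw [Finset.sum_range_succ]
  linarith

/-- the distance of two different points -/
theorem sdense_dist {E : Type*} [NormedAddCommGroup E] (q : ℕ → E) {j k : ℕ} (h : k ≠ j) :
    1 + ((j : ℝ) + k) / 2 + ‖q k‖ ≤ (sdense_x q j - sdense_x q k) ^ 2 := by
  have key : ∀ b : ℝ, 1 + ((j : ℝ) + k) / 2 + ‖q k‖ ≤ b →
      (b ≤ sdense_x q j - sdense_x q k ∨ b ≤ sdense_x q k - sdense_x q j) →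
      1 + ((j : ℝ) + k) / 2 + ‖q k‖ ≤ (sdense_x q j - sdense_x q k) ^ 2 := by
    intro b hb h1
    have hj : (0 : ℝ) ≤ j := Nat.cast_nonneg j
    have hk : (0 : ℝ) ≤ k := Nat.cast_nonneg k
    have hq := norm_nonneg (q k)
    have hb1 : 1 ≤ b := by linarith
    have h2 : b ≤ b ^ 2 := by nlinarith
    rcases h1 with h1 | h1
    · have : b ^ 2 ≤ (sdense_x q j - sdense_x q k) ^ 2 := pow_le_pow_left₀ (by linarith) h1 2
      linarith
    · have : b ^ 2 ≤ (sdense_x q k - sdense_x q j) ^ 2 := pow_le_pow_left₀ (by linarith) h1 2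
      nlinarith
  rcases lt_or_gt_of_ne h with h1 | h1
  · refine key (sdense_a q j) ?_ (Or.inl (sdense_x_sub q h1))
    have h2 := sdense_a_ge q h1.le
    have h3 : (k : ℝ) ≤ j := by exact_mod_cast h1.le
    linarith
  · refine key (sdense_a q k) ?_ (Or.inr (sdense_x_sub q h1))
    have h2 := sdense_a_ge q (le_refl k)
    have h3 : (j : ℝ) ≤ k := by exact_mod_cast h1.le
    linarith

/-- the terms of the series -/
noncomputable def sdense_F {E : Type*} [NormedAddCommGroup E] [NormedSpace ℂ E] (q : ℕ → E)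
    (k : ℕ) (t : ℂ) : E :=
  Complex.exp (-(t - (sdense_x q k : ℂ)) ^ 2) • q k

theorem sdense_F_self {E : Type*} [NormedAddCommGroup E] [NormedSpace ℂ E] (q : ℕ → E)
    (k : ℕ) : sdense_F q k (sdense_x q k : ℂ) = q k := by
  unfold sdense_F
  rw [sub_self, zero_pow two_ne_zero, neg_zero, Complex.exp_zero, one_smul]

/-- the general size of the terms -/
theorem sdense_F_norm {E : Type*} [NormedAddCommGroup E] [NormedSpace ℂ E] (q : ℕ → E)
    (k : ℕ) (t : ℂ) : ‖sdense_F q k t‖ =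
      Real.exp (t.im ^ 2 - (t.re - sdense_x q k) ^ 2) * ‖q k‖ := by
  unfold sdense_F
  rw [norm_smul, Complex.norm_exp]
  congr 2
  rw [Complex.neg_re, sq (t - (sdense_x q k : ℂ)), Complex.mul_re, Complex.sub_re, Complex.sub_im,
    Complex.ofReal_re, Complex.ofReal_im]
  ring

/-- the size of the terms on discs -/
theorem sdense_F_le {E : Type*} [NormedAddCommGroup E] [NormedSpace ℂ E] (q : ℕ → E)
    (k : ℕ) {t : ℂ} {R : ℝ} (ht : ‖t‖ ≤ R) :
    ‖sdense_F q k t‖ ≤ Real.exp (R ^ 2) * 2 * Real.exp (-1 / 2) ^ k := by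
  rw [sdense_F_norm]
  have h1 : t.re ^ 2 + t.im ^ 2 ≤ R ^ 2 := by
    have h2 : t.re ^ 2 + t.im ^ 2 = ‖t‖ ^ 2 := by
      rw [← Complex.normSq_eq_norm_sq, Complex.normSq_apply]
      ring
    rw [h2]
    exact pow_le_pow_left₀ (norm_nonneg _) ht 2
  have h2 : 1 + (k : ℝ) + ‖q k‖ ≤ sdense_x q k :=
    (sdense_a_ge q (le_refl k)).trans (sdense_x_ge q k)
  have hk : (0 : ℝ) ≤ k := Nat.cast_nonneg k
  have hq := norm_nonneg (q k)
  have h3 : t.im ^ 2 - (t.re - sdense_x q k) ^ 2 ≤ R ^ 2 - (k : ℝ) / 2 - ‖q k‖ / 2 := by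
    have h4 : sdense_x q k ≤ sdense_x q k ^ 2 := by nlinarith
    nlinarith [sq_nonneg (2 * t.re - sdense_x q k)]
  have h5 : ‖q k‖ ≤ 2 * Real.exp (‖q k‖ / 2) := by
    have := Real.add_one_le_exp (‖q k‖ / 2)
    linarith
  calc Real.exp (t.im ^ 2 - (t.re - sdense_x q k) ^ 2) * ‖q k‖
      ≤ Real.exp (R ^ 2 - (k : ℝ) / 2 - ‖q k‖ / 2) * (2 * Real.exp (‖q k‖ / 2)) :=
        mul_le_mul (Real.exp_le_exp.2 h3) h5 hq (Real.exp_pos _).le
    _ = 2 * Real.exp (R ^ 2 - (k : ℝ) / 2) := by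
        rw [mul_left_comm, ← Real.exp_add]
        ring_nf
    _ = _ := by
        rw [← Real.exp_nat_mul, show R ^ 2 - (k : ℝ) / 2 = R ^ 2 + (k : ℝ) * (-1 / 2) by ring,
          Real.exp_add]
        ring

/-- the size of the terms at the other points -/
theorem sdense_F_pt {E : Type*} [NormedAddCommGroup E] [NormedSpace ℂ E] (q : ℕ → E)
    {j k : ℕ} (h : k ≠ j) :
    ‖sdense_F q k (sdense_x q j : ℂ)‖ ≤ Real.exp (-1 / 2) ^ j * Real.exp (-1 / 2) ^ k := by
  rw [sdense_F_norm, Complex.ofReal_re, Complex.ofReal_im]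
  have h1 := sdense_dist q h
  have hq := norm_nonneg (q k)
  have h5 : ‖q k‖ ≤ Real.exp (‖q k‖) := by
    have := Real.add_one_le_exp (‖q k‖)
    linarith
  calc Real.exp (0 ^ 2 - (sdense_x q j - sdense_x q k) ^ 2) * ‖q k‖
      ≤ Real.exp (-(((j : ℝ) + k) / 2) - ‖q k‖) * Real.exp (‖q k‖) :=
        mul_le_mul (Real.exp_le_exp.2 (by linarith)) h5 hq (Real.exp_pos _).le
    _ = _ := by
        rw [← Real.exp_add, ← Real.exp_nat_mul, ← Real.exp_nat_mul, ← Real.exp_add]
        ring_nf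

theorem sdense_r : Real.exp (-1 / 2) < 1 := by
  rw [← Real.exp_zero]
  exact Real.exp_lt_exp.2 (by norm_num)

theorem sdense_summable : Summable fun k : ℕ => Real.exp (-1 / 2) ^ k :=
  summable_geometric_of_lt_one (Real.exp_pos _).le sdense_r

theorem exists_dense_curve (B : Type*) [Fintype B] :
    ∃ f : ℂ → (B → ℂ), Differentiable ℂ f ∧ DenseRange f := by
  classical
  let q : ℕ → (B → ℂ) := fun k => TopologicalSpace.denseSeq (B → ℂ) (Nat.unpair k).1
  have hsum : ∀ t : ℂ, Summable fun k => sdense_F q k t := fun t =>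
    Summable.of_norm_bounded (g := fun k => Real.exp (‖t‖ ^ 2) * 2 * Real.exp (-1 / 2) ^ k)
      (sdense_summable.mul_left _) fun k => sdense_F_le q k le_rfl
  refine ⟨fun t => ∑' k, sdense_F q k t, fun t₀ => ?_, ?_⟩
  · have h1 : DifferentiableOn ℂ (fun t => ∑' k, sdense_F q k t) (ball 0 (‖t₀‖ + 1)) := by
      refine Complex.differentiableOn_tsum_of_summable_norm
        (u := fun k => Real.exp ((‖t₀‖ + 1) ^ 2) * 2 * Real.exp (-1 / 2) ^ k)
        (sdense_summable.mul_left _) (fun k => ?_) isOpen_ball fun k t ht => ?_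
      · unfold sdense_F
        fun_prop
      · rw [mem_ball_zero_iff] at ht
        exact sdense_F_le q k ht.le
    exact h1.differentiableAt (isOpen_ball.mem_nhds (by
      rw [mem_ball_zero_iff]
      linarith))
  · have hlim : Tendsto (fun j : ℕ => Real.exp (-1 / 2) ^ j *
        ∑' k : ℕ, Real.exp (-1 / 2) ^ k) atTop (𝓝 0) := by
      have := (tendsto_pow_atTop_nhds_zero_of_lt_one (Real.exp_pos (-1 / 2)).le
        sdense_r).mul_const (∑' k : ℕ, Real.exp (-1 / 2) ^ k)
      rwa [zero_mul] at this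
    have hval : ∀ j : ℕ, ‖(∑' k, sdense_F q k (sdense_x q j : ℂ)) - q j‖ ≤
        Real.exp (-1 / 2) ^ j * ∑' k : ℕ, Real.exp (-1 / 2) ^ k := by
      intro j
      rw [(hsum (sdense_x q j : ℂ)).tsum_eq_add_tsum_ite j, sdense_F_self, add_sub_cancel_left,
        ← tsum_mul_left]
      refine tsum_of_norm_bounded (sdense_summable.mul_left _).hasSum fun k => ?_
      split_ifs with h
      · rw [norm_zero]
        positivity
      · exact sdense_F_pt q h
    intro w
    rw [Metric.mem_closure_iff]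
    intro ε hε
    obtain ⟨n, hn⟩ := Metric.denseRange_iff.1
      (TopologicalSpace.denseRange_denseSeq (B → ℂ)) w (ε / 2) (by linarith)
    obtain ⟨N, hN⟩ := Filter.eventually_atTop.1 (hlim.eventually (gt_mem_nhds (half_pos hε)))
    have h1 := hval (Nat.pair n N)
    have h2 := hN (Nat.pair n N) (Nat.right_le_pair n N)
    have h3 : q (Nat.pair n N) = TopologicalSpace.denseSeq (B → ℂ) n := by
      show TopologicalSpace.denseSeq (B → ℂ) (Nat.unpair (Nat.pair n N)).1 = _
      rw [Nat.unpair_pair]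
    refine ⟨_, ⟨(sdense_x q (Nat.pair n N) : ℂ), rfl⟩, ?_⟩
    have h4 := dist_triangle w (q (Nat.pair n N))
      (∑' k, sdense_F q k (sdense_x q (Nat.pair n N) : ℂ))
    rw [dist_comm (q (Nat.pair n N)), dist_eq_norm (∑' k, sdense_F q k _), h3] at h4
    rw [h3] at h1
    linarith

end Pool.Agent.H906.BD.S
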