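import Pool.Agent.H906.BD.S.Defs
import Pool.Agent.H906.BD.Contra

/-! # S05 Fibres: entire curves in quotients of `D × ℂ^B` with discrete base

`Δ` acts on `D × ℂ^B` by `ρ` over the action `σ` on the bounded domain `D`, which is properly discontinuous modulo
elements acting trivially (`hdisc`). `A` is nonempty.
(1) `fibre_analytic`: for `z ∈ D` the set `{x | prA x ∈ Δ z}` is analytic. Proof: near `x ∈ Tot D B` take a compact
neighbourhood `K ⊆ D` of `prA x` containing also `z`, and `T` from `hdisc`. For `y` with `prA y` in the interior `V₀` of this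
neighbourhood: `prA y ∈ Δ z` iff `prA y = σ t z` for some `t ∈ T` (if `prA y = σ γ z` then `z ∈ K`, `σ γ z ∈ K`, so `σ γ = σ t`). This is the
set of common zeros of the finitely many functions `∏_{t ∈ T} (y_{inl (i t)} - (σ t z)_{i t})`, `i : T → A` arbitrary
(enumerate `T → A` by some `Fin n`).
(2) `graph_analytic`: the set of `x ∈ Two (Tot D B)` with `prA (x ∘ inr) ∈ Δ prA (x ∘ inl)` is analytic for
`twoAct ρ`. Proof: similar; near a point use a compact neighbourhood `K` of both `prA (x ∘ inl)` and `prA (x ∘ inr)` and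
the functions `∏_{t ∈ T} ((prA (y ∘ inr))_{i t} - (σ t (prA (y ∘ inl)))_{i t})`. Invariance: if `z' = σ γ z` then
`σ ε z' = σ (ε γ δ⁻¹) (σ δ z)`.
(3) `entire_fibre`: an entire curve in `D × ℂ^B` has constant first component (Liouville; `D` bounded).
(4) `not_brody`: `X` is not Brody-special: the Zariski closure of `range f` is in `{x | prA x ∈ Δ z}`, which is not
everything: for `A` nonempty `D` is open, nonempty and uncountable, but `Δ z ∩ K` is finite for compact `K ⊆ D`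
(`hdisc` for `K ∪ {z}`); so some point of a ball is not in `Δ z`.
(5) `not_hspecial`: `Linked x y` implies that `prA x` and `prA y` are in the same orbit (the one of the constant of
(3)), so `TransGen` too; so the closure is contained in the graph of (2), which is not `Two (Tot D B)` by the
argument of (4). -/

set_option linter.unusedSectionVars false

open Filter Topology Set Metric

namespace Pool.Agent.H906.BD.S

variable {A B : Type*} [Fintype A] [Fintype B] [DecidableEq A] [DecidableEq B]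
variable {Δ : Type*} [Group Δ]

/-- finitely many equations for a finite union of graphs -/
theorem sfibres_equations {N : Type*} [Fintype N] {V S : Set (N → ℂ)} (T : Finset Δ)
    (P : (N → ℂ) → (A → ℂ)) (a : Δ → (N → ℂ) → (A → ℂ))
    (hP : ∀ i, DifferentiableOn ℂ (fun y => P y i) V)
    (ha : ∀ t i, DifferentiableOn ℂ (fun y => a t y i) V)
    (hS : ∀ y ∈ V, (y ∈ S ↔ ∃ t ∈ T, P y = a t y)) :
    ∃ (n : ℕ) (F : Fin n → (N → ℂ) → ℂ), (∀ i, DifferentiableOn ℂ (F i) V) ∧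
      ∀ y ∈ V, (y ∈ S ↔ ∀ i, F i y = 0) := by
  classical
  let e : ({t // t ∈ T} → A) ≃ Fin (Fintype.card ({t // t ∈ T} → A)) := Fintype.equivFin _
  refine ⟨Fintype.card ({t // t ∈ T} → A), fun j y => ∏ t : {t // t ∈ T},
    (P y (e.symm j t) - a t.1 y (e.symm j t)), ?_, ?_⟩
  · intro j
    intro y hy
    exact (HasFDerivWithinAt.finsetProd (u := Finset.univ)
      (g := fun (t : {t // t ∈ T}) (y : N → ℂ) => P y (e.symm j t) - a t.1 y (e.symm j t))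
      fun t _ => (((hP _).fun_sub (ha _ _)) y hy).hasFDerivWithinAt).differentiableWithinAt
  · intro y hy
    rw [hS y hy]
    constructor
    · rintro ⟨t, ht, h⟩ j
      refine Finset.prod_eq_zero (Finset.mem_univ (⟨t, ht⟩ : {t // t ∈ T})) ?_
      rw [h, sub_self]
    · intro h
      by_contra hcon
      push Not at hcon
      have h1 : ∀ t : {t // t ∈ T}, ∃ i, P y i ≠ a t.1 y i := by
        intro t
        by_contra hne
        push Not at hne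
        exact hcon t.1 t.2 (funext hne)
      choose i hi using h1
      have h2 := h (e i)
      rw [Finset.prod_eq_zero_iff] at h2
      obtain ⟨t, -, h3⟩ := h2
      rw [Equiv.symm_apply_apply] at h3
      exact hi t (sub_eq_zero.1 h3)

theorem sfibres_diff_prA (i : A) : Differentiable ℂ fun y : A ⊕ B → ℂ => prA y i :=
  differentiable_pi.1 (prAL (A := A) (B := B)).differentiable i

/-- `prA (y ∘ Sum.inl)` and `prA (y ∘ Sum.inr)` as continuous linear maps -/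
noncomputable def sfibres_pl : ((A ⊕ B) ⊕ (A ⊕ B) → ℂ) →L[ℂ] (A → ℂ) :=
  ContinuousLinearMap.pi fun i => ContinuousLinearMap.proj (Sum.inl (Sum.inl i))

noncomputable def sfibres_pr : ((A ⊕ B) ⊕ (A ⊕ B) → ℂ) →L[ℂ] (A → ℂ) :=
  ContinuousLinearMap.pi fun i => ContinuousLinearMap.proj (Sum.inr (Sum.inl i))

theorem sfibres_pl_apply (y : (A ⊕ B) ⊕ (A ⊕ B) → ℂ) : sfibres_pl y = prA (y ∘ Sum.inl) := rfl

theorem sfibres_pr_apply (y : (A ⊕ B) ⊕ (A ⊕ B) → ℂ) : sfibres_pr y = prA (y ∘ Sum.inr) := rfl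

theorem fibre_analytic {D : Set (A → ℂ)} (hD : IsOpen D)
    {ρ : Δ → (A ⊕ B → ℂ) → (A ⊕ B → ℂ)} (hρ : HolAct (Tot D B) ρ)
    {σ : Δ → (A → ℂ) → (A → ℂ)} (hσ : HolAct D σ)
    (hρσ : ∀ δ, ∀ x ∈ Tot D B, prA (ρ δ x) = σ δ (prA x))
    (hdisc : ∀ K ⊆ D, IsCompact K → ∃ T : Finset Δ, ∀ γ, (∃ z ∈ K, σ γ z ∈ K) →
      ∃ t ∈ T, ∀ z ∈ D, σ γ z = σ t z) {z : A → ℂ} (hz : z ∈ D) :
    IsAnalytic (Tot D B) ρ {x | ∃ δ, prA x = σ δ z} := by
  have hsub : {x : A ⊕ B → ℂ | ∃ δ, prA x = σ δ z} ⊆ Tot D B := by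
    rintro x ⟨δ, hx⟩
    show prA x ∈ D
    rw [hx]
    exact hσ.maps δ z hz
  refine ⟨hsub, ?_, ?_⟩
  · rintro δ x hx
    have hxT := hsub hx
    obtain ⟨γ, hx⟩ := hx
    refine ⟨δ * γ, ?_⟩
    rw [hρσ δ x hxT, hx, hσ.mul δ γ z hz]
  · intro x hx
    have hp : prA x ∈ D := hx
    obtain ⟨r, hr, hball⟩ := Metric.nhds_basis_closedBall.mem_iff.1 (hD.mem_nhds hp)
    obtain ⟨T, hT⟩ := hdisc (closedBall (prA x) r ∪ {z})
      (union_subset hball (singleton_subset_iff.2 hz))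
      ((isCompact_closedBall _ _).union isCompact_singleton)
    have hV : {y : A ⊕ B → ℂ | prA y ∈ ball (prA x) r} ⊆ Tot D B := fun y hy =>
      hball (ball_subset_closedBall hy)
    refine ⟨{y | prA y ∈ ball (prA x) r}, isOpen_ball.preimage continuous_prA,
      mem_ball_self hr, hV, ?_⟩
    refine sfibres_equations T prA (fun t _ => σ t z)
      (fun i => (sfibres_diff_prA i).differentiableOn)
      (fun t i => differentiableOn_const _) ?_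
    intro y hy
    constructor
    · rintro ⟨γ, hγ⟩
      obtain ⟨t, ht, h⟩ := hT γ ⟨z, Or.inr rfl, Or.inl (by
        rw [← hγ]
        exact ball_subset_closedBall hy)⟩
      exact ⟨t, ht, by rw [hγ, h z hz]⟩
    · rintro ⟨t, -, h⟩
      exact ⟨t, h⟩

theorem graph_analytic {D : Set (A → ℂ)} (hD : IsOpen D)
    {ρ : Δ → (A ⊕ B → ℂ) → (A ⊕ B → ℂ)} (hρ : HolAct (Tot D B) ρ)
    {σ : Δ → (A → ℂ) → (A → ℂ)} (hσ : HolAct D σ)
    (hρσ : ∀ δ, ∀ x ∈ Tot D B, prA (ρ δ x) = σ δ (prA x))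
    (hdisc : ∀ K ⊆ D, IsCompact K → ∃ T : Finset Δ, ∀ γ, (∃ z ∈ K, σ γ z ∈ K) →
      ∃ t ∈ T, ∀ z ∈ D, σ γ z = σ t z) :
    IsAnalytic (Two (Tot D B)) (twoAct ρ)
      {x | x ∈ Two (Tot D B) ∧ ∃ δ, prA (x ∘ Sum.inr) = σ δ (prA (x ∘ Sum.inl))} := by
  refine ⟨fun x hx => hx.1, ?_, ?_⟩
  · rintro ⟨δ1, δ2⟩ x ⟨hx, γ, hγ⟩
    have hx1 : x ∘ Sum.inl ∈ Tot D B := hx.1
    have hx2 : x ∘ Sum.inr ∈ Tot D B := hx.2
    have hx1' : prA (x ∘ Sum.inl) ∈ D := hx1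
    have e1 : (twoAct ρ (δ1, δ2) x) ∘ Sum.inl = ρ δ1 (x ∘ Sum.inl) := rfl
    have e2 : (twoAct ρ (δ1, δ2) x) ∘ Sum.inr = ρ δ2 (x ∘ Sum.inr) := rfl
    refine ⟨⟨?_, ?_⟩, δ2 * γ * δ1⁻¹, ?_⟩
    · rw [e1]
      exact hρ.maps δ1 _ hx1
    · rw [e2]
      exact hρ.maps δ2 _ hx2
    · rw [e1, e2, hρσ δ2 _ hx2, hρσ δ1 _ hx1, hγ,
        ← hσ.mul (δ2 * γ * δ1⁻¹) δ1 _ hx1', inv_mul_cancel_right, hσ.mul δ2 γ _ hx1']
  · intro x hx
    have hp : prA (x ∘ Sum.inl) ∈ D := hx.1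
    have hq : prA (x ∘ Sum.inr) ∈ D := hx.2
    obtain ⟨r, hr, hball⟩ := Metric.nhds_basis_closedBall.mem_iff.1 (hD.mem_nhds hp)
    obtain ⟨r', hr', hball'⟩ := Metric.nhds_basis_closedBall.mem_iff.1 (hD.mem_nhds hq)
    obtain ⟨T, hT⟩ := hdisc (closedBall (prA (x ∘ Sum.inl)) r ∪ closedBall (prA (x ∘ Sum.inr)) r')
      (union_subset hball hball') ((isCompact_closedBall _ _).union (isCompact_closedBall _ _))
    have ho : IsOpen ({y : (A ⊕ B) ⊕ (A ⊕ B) → ℂ | sfibres_pl y ∈ ball (prA (x ∘ Sum.inl)) r} ∩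
        {y | sfibres_pr y ∈ ball (prA (x ∘ Sum.inr)) r'}) :=
      (isOpen_ball.preimage (sfibres_pl (A := A) (B := B)).continuous).inter
        (isOpen_ball.preimage (sfibres_pr (A := A) (B := B)).continuous)
    have hV : ({y : (A ⊕ B) ⊕ (A ⊕ B) → ℂ | sfibres_pl y ∈ ball (prA (x ∘ Sum.inl)) r} ∩
        {y | sfibres_pr y ∈ ball (prA (x ∘ Sum.inr)) r'}) ⊆ Two (Tot D B) := fun y hy =>
      ⟨hball (ball_subset_closedBall hy.1), hball' (ball_subset_closedBall hy.2)⟩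
    refine ⟨_, ho, ⟨mem_ball_self hr, mem_ball_self hr'⟩, hV, ?_⟩
    refine sfibres_equations T (fun y => sfibres_pr y) (fun t y => σ t (sfibres_pl y))
      (fun i => (differentiable_pi.1 (sfibres_pr (A := A) (B := B)).differentiable i).differentiableOn)
      (fun t i => ?_) ?_
    · have h1 : DifferentiableOn ℂ (fun y : (A ⊕ B) ⊕ (A ⊕ B) → ℂ => σ t (sfibres_pl y))
          ({y : (A ⊕ B) ⊕ (A ⊕ B) → ℂ | sfibres_pl y ∈ ball (prA (x ∘ Sum.inl)) r} ∩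
        {y | sfibres_pr y ∈ ball (prA (x ∘ Sum.inr)) r'}) :=
        (hσ.hol t).comp (sfibres_pl (A := A) (B := B)).differentiable.differentiableOn
          (fun y hy => hball (ball_subset_closedBall hy.1))
      exact differentiableOn_pi.1 h1 i
    intro y hy
    have hy1 : prA (y ∘ Sum.inl) ∈ D := hball (ball_subset_closedBall hy.1)
    constructor
    · rintro ⟨-, γ, hγ⟩
      obtain ⟨t, ht, h⟩ := hT γ ⟨prA (y ∘ Sum.inl), Or.inl (ball_subset_closedBall hy.1), Or.inr (by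
        rw [← hγ]
        exact ball_subset_closedBall hy.2)⟩
      exact ⟨t, ht, by
        show prA (y ∘ Sum.inr) = σ t (prA (y ∘ Sum.inl))
        rw [hγ, h _ hy1]⟩
    · rintro ⟨t, -, h⟩
      exact ⟨hV hy, t, h⟩

theorem entire_fibre {D : Set (A → ℂ)} {R : ℝ} (hR : ∀ z ∈ D, ‖z‖ ≤ R)
    {f : ℂ → (A ⊕ B → ℂ)} (hf : IsEntire (Tot D B) f) : ∀ t, prA (f t) = prA (f 0) := by
  intro t
  have h1 : Differentiable ℂ fun t => prA (f t) :=
    (prAL (A := A) (B := B)).differentiable.comp hf.1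
  have h2 : Bornology.IsBounded (range fun t => prA (f t)) := by
    rw [isBounded_iff_forall_norm_le]
    refine ⟨R, ?_⟩
    rintro _ ⟨t, rfl⟩
    exact hR _ (hf.2 t)
  exact h1.apply_eq_apply_of_bounded h2 t 0

/-- orbits are not everything -/
theorem sfibres_orbit [Nonempty A] {D : Set (A → ℂ)} (hD : IsOpen D)
    {σ : Δ → (A → ℂ) → (A → ℂ)}
    (hdisc : ∀ K ⊆ D, IsCompact K → ∃ T : Finset Δ, ∀ γ, (∃ z ∈ K, σ γ z ∈ K) →
      ∃ t ∈ T, ∀ z ∈ D, σ γ z = σ t z) {z : A → ℂ} (hz : z ∈ D) :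
    ∃ y ∈ D, ∀ δ, y ≠ σ δ z := by
  classical
  by_contra hcon
  push Not at hcon
  obtain ⟨r, hr, hball⟩ := Metric.nhds_basis_closedBall.mem_iff.1 (hD.mem_nhds hz)
  obtain ⟨T, hT⟩ := hdisc (closedBall z r) hball (isCompact_closedBall _ _)
  have h1 : closedBall z r ⊆ ((T.image fun t => σ t z : Finset (A → ℂ)) : Set (A → ℂ)) := by
    intro y hy
    obtain ⟨δ, hδ⟩ := hcon y (hball hy)
    obtain ⟨t, ht, h⟩ := hT δ ⟨z, mem_closedBall_self hr.le, by rw [← hδ]; exact hy⟩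
    rw [Finset.coe_image]
    exact ⟨t, ht, by rw [hδ, h z hz]⟩
  have h2 : (closedBall z r).Finite := (Finset.finite_toSet _).subset h1
  have h3 : (𝓝[≠] z).NeBot := Module.punctured_nhds_neBot ℂ (A → ℂ) z
  exact (infinite_of_mem_nhds z (closedBall_mem_nhds z hr)) h2

/-- the closure of an entire curve is in one fibre -/
theorem sfibres_closure {D : Set (A → ℂ)} (hD : IsOpen D) {R : ℝ}
    (hR : ∀ z ∈ D, ‖z‖ ≤ R) {ρ : Δ → (A ⊕ B → ℂ) → (A ⊕ B → ℂ)} (hρ : HolAct (Tot D B) ρ)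
    {σ : Δ → (A → ℂ) → (A → ℂ)} (hσ : HolAct D σ)
    (hρσ : ∀ δ, ∀ x ∈ Tot D B, prA (ρ δ x) = σ δ (prA x))
    (hdisc : ∀ K ⊆ D, IsCompact K → ∃ T : Finset Δ, ∀ γ, (∃ z ∈ K, σ γ z ∈ K) →
      ∃ t ∈ T, ∀ z ∈ D, σ γ z = σ t z) {f : ℂ → (A ⊕ B → ℂ)} (hf : IsEntire (Tot D B) f)
    {x : A ⊕ B → ℂ} (hx : x ∈ zariskiClosure (Tot D B) ρ (range f)) :
    ∃ δ, prA x = σ δ (prA (f 0)) := by
  have hz : prA (f 0) ∈ D := hf.2 0
  refine hx.2 _ (fibre_analytic hD hρ hσ hρσ hdisc hz) ?_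
  rintro _ ⟨t, rfl⟩
  exact ⟨1, by rw [entire_fibre hR hf t, hσ.one _ hz]⟩

theorem not_brody [Nonempty A] {D : Set (A → ℂ)} (hD : IsOpen D) (hne : D.Nonempty) {R : ℝ}
    (hR : ∀ z ∈ D, ‖z‖ ≤ R) {ρ : Δ → (A ⊕ B → ℂ) → (A ⊕ B → ℂ)} (hρ : HolAct (Tot D B) ρ)
    {σ : Δ → (A → ℂ) → (A → ℂ)} (hσ : HolAct D σ)
    (hρσ : ∀ δ, ∀ x ∈ Tot D B, prA (ρ δ x) = σ δ (prA x))
    (hdisc : ∀ K ⊆ D, IsCompact K → ∃ T : Finset Δ, ∀ γ, (∃ z ∈ K, σ γ z ∈ K) →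
      ∃ t ∈ T, ∀ z ∈ D, σ γ z = σ t z) : ¬ IsBrodySpecial (Tot D B) ρ := by
  rintro ⟨f, hf, hcl⟩
  have hz : prA (f 0) ∈ D := hf.2 0
  obtain ⟨y, hy, hy'⟩ := sfibres_orbit hD hdisc hz
  have hx : Sum.elim y (0 : B → ℂ) ∈ Tot D B := hy
  rw [← hcl] at hx
  obtain ⟨δ, hδ⟩ := sfibres_closure hD hR hρ hσ hρσ hdisc hf hx
  exact hy' δ hδ

theorem not_hspecial [Nonempty A] {D : Set (A → ℂ)} (hD : IsOpen D) (hne : D.Nonempty) {R : ℝ}
    (hR : ∀ z ∈ D, ‖z‖ ≤ R) {ρ : Δ → (A ⊕ B → ℂ) → (A ⊕ B → ℂ)} (hρ : HolAct (Tot D B) ρ)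
    {σ : Δ → (A → ℂ) → (A → ℂ)} (hσ : HolAct D σ)
    (hρσ : ∀ δ, ∀ x ∈ Tot D B, prA (ρ δ x) = σ δ (prA x))
    (hdisc : ∀ K ⊆ D, IsCompact K → ∃ T : Finset Δ, ∀ γ, (∃ z ∈ K, σ γ z ∈ K) →
      ∃ t ∈ T, ∀ z ∈ D, σ γ z = σ t z) : ¬ IsHSpecial (Tot D B) ρ := by
  intro hcl
  have hlink : ∀ u v, Linked (Tot D B) ρ u v →
      u ∈ Tot D B ∧ v ∈ Tot D B ∧ ∃ δ, prA v = σ δ (prA u) := by
    rintro u v ⟨f, hf, hu, hv⟩
    have hz : prA (f 0) ∈ D := hf.2 0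
    obtain ⟨δ, hδ⟩ := sfibres_closure hD hR hρ hσ hρσ hdisc hf hu
    obtain ⟨ε, hε⟩ := sfibres_closure hD hR hρ hσ hρσ hdisc hf hv
    refine ⟨hu.1, hv.1, ε * δ⁻¹, ?_⟩
    rw [hε, hδ, ← hσ.mul (ε * δ⁻¹) δ _ hz, inv_mul_cancel_right]
  have htrans : ∀ u v, Relation.TransGen (Linked (Tot D B) ρ) u v →
      u ∈ Tot D B ∧ v ∈ Tot D B ∧ ∃ δ, prA v = σ δ (prA u) := by
    intro u v h
    induction h with
    | single h => exact hlink _ _ h
    | @tail b c _ h ih =>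
      obtain ⟨h1, h2, δ, hδ⟩ := ih
      obtain ⟨-, h3, ε, hε⟩ := hlink _ _ h
      refine ⟨h1, h3, ε * δ, ?_⟩
      rw [hε, hδ, hσ.mul ε δ _ h1]
  obtain ⟨z, hz⟩ := hne
  obtain ⟨y, hy, hy'⟩ := sfibres_orbit hD hdisc hz
  have hx : (Sum.elim (Sum.elim z (0 : B → ℂ)) (Sum.elim y (0 : B → ℂ)) :
      (A ⊕ B) ⊕ (A ⊕ B) → ℂ) ∈ Two (Tot D B) := ⟨hz, hy⟩
  rw [← hcl] at hx
  obtain ⟨-, δ, hδ⟩ := hx.2 _ (graph_analytic hD hρ hσ hρσ hdisc) (fun x hx => by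
    obtain ⟨h1, h2, h3⟩ := htrans _ _ hx
    exact ⟨⟨h1, h2⟩, h3⟩)
  exact hy' δ hδ

end Pool.Agent.H906.BD.S
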