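import Pool.Agent.H906.BD.S.Defs
import Pool.Agent.H906.BD.Lin

/-! # The lattice of the fibres -/

set_option linter.unusedSectionVars false

open Filter Topology Set Metric
open scoped ComplexOrder

namespace Pool.Agent.H906.BD.S

variable {A B : Type*} [Fintype A] [Fintype B] [DecidableEq A] [DecidableEq B]
variable {Γ : Type*} [Group Γ]

/-- the translations of the fibres by elements of `Γ` form a lattice -/
theorem exists_lattice {D : Set (A → ℂ)} (hD : IsOpen D) (hne : D.Nonempty)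
    {ρ : Γ → (A ⊕ B → ℂ) → (A ⊕ B → ℂ)} {σ : Γ → (A → ℂ) → (A → ℂ)} {a b : Γ → B → ℂ}
    (h : SplitAct D ρ σ a b) (ha : ∀ γ δ j, a (γ * δ) j = a γ j * a δ j)
    (ha0 : ∀ γ j, a γ j ≠ 0) (hpd : PD (Tot D B) ρ) (hcc : CC (Tot D B) ρ)
    {g : (A ⊕ B → ℂ) → Matrix (A ⊕ B) (A ⊕ B) ℂ} (hg : Kahler (Tot D B) g)
    (hinv : InvForm (Tot D B) ρ g)
    (hdisc : ∀ K ⊆ D, IsCompact K → ∃ T : Finset Γ, ∀ γ, (∃ z ∈ K, σ γ z ∈ K) →
      ∃ t ∈ T, ∀ z ∈ D, σ γ z = σ t z) :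
    (∃ L : AddSubgroup (B → ℂ), IsLattice L ∧
      ∀ v ∈ L, ∃ γ, Triv D σ γ ∧ (∀ j, a γ j = 1) ∧ ∀ j, b γ j = v j) ∧
    ∃ m : ℕ, 0 < m ∧ ∀ γ, Triv D σ γ → ∀ j, a γ j ^ m = 1 := by
  obtain ⟨z₀, hz₀⟩ := id hne
  obtain ⟨X, hX⟩ := lin_X (b := b) ha0
  obtain ⟨hG, hU⟩ := lin_pc (lin_pd hD hne h ha ha0 hpd) (lin_cc hD hne h ha ha0 hcc hdisc)
    fun inst => ⟨_, @lin_kahler _ _ _ _ _ _ _ _ _ hD hne _ _ _ _ h ha ha0 inst _ hz₀ _ hg hinv⟩
  refine ⟨?_, ?_⟩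
  · let e : PC.Pt (Fin 0) B →ₗ[ℝ] (B → ℂ) :=
      { toFun := fun t j => t (Sum.inr j)
        map_add' := fun _ _ => rfl
        map_smul' := fun _ _ => rfl }
    have hsurj : Function.Surjective e := fun v => ⟨Sum.elim (fun i => i.elim0) v, rfl⟩
    have hnorm : ∀ t, ‖t‖ ≤ ‖e t‖ := by
      intro t
      refine (pi_norm_le_iff_of_nonneg (norm_nonneg _)).2 ?_
      rintro (i | j)
      · exact i.elim0
      · exact norm_le_pi_norm (e t) j
    let L : AddSubgroup (B → ℂ) := (PC.LL hG).map e.toAddMonoidHom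
    refine ⟨L, ⟨fun r => ?_, ?_⟩, ?_⟩
    · refine ((PC.LL_finite hG r).image e).subset ?_
      rintro _ ⟨⟨t, ht, rfl⟩, hr⟩
      exact ⟨t, ⟨ht, (hnorm t).trans hr⟩, rfl⟩
    · have e1 : (L : Set (B → ℂ)) = e '' (PC.LL hG : Set (PC.Pt (Fin 0) B)) := rfl
      rw [e1, ← Submodule.map_span]
      refine eq_top_iff.2 fun v _ => ?_
      obtain ⟨t, rfl⟩ := hsurj v
      exact ⟨t, PC.VV_eq_TT hG hU (fun i => i.elim0), rfl⟩
    · rintro _ ⟨t, ⟨lam, hlam, hlam1, rfl⟩, rfl⟩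
      obtain ⟨δ, hδ, hlamδ⟩ := PC.ker_le hlam
      refine ⟨δ, hδ, fun j => ?_, fun j => ?_⟩
      · have h1 := congrFun hlam1 (Sum.inr j)
        have h2 : PC.dd (fun _ => False) lam (Sum.inr j) = PC.lin (lam.2 j) := rfl
        rw [h2, lin_lin (hlamδ j)] at h1
        exact h1
      · have h2 : e (PC.tt (fun _ => False) lam) j = lam.2 j 0 := rfl
        refine Eq.trans ?_ h2.symm
        rw [hlamδ j, mul_zero, zero_add]
  · obtain ⟨-, m, hm, hm'⟩ := PC.lin_pow hG hU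
    refine ⟨m, hm, fun γ hγ j => ?_⟩
    have h1 := hm' (X γ) ⟨γ, hγ, hX γ⟩ j
    rw [lin_lin (hX γ j)] at h1
    exact h1

/-- for `γ` with linear parts of bounded order: the elements with linear part one form a subgroup
of finite index -/
theorem finite_index_kernel {Δ : Type*} [Group Δ] {Δ0 : Subgroup Δ} (hfi : Δ0.FiniteIndex)
    {a : Δ0 → B → ℂ} (ha : ∀ γ δ j, a (γ * δ) j = a γ j * a δ j) {m : ℕ} (hm : 0 < m)
    (h : ∀ γ j, a γ j ^ m = 1) :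
    ∃ H : Subgroup Δ, H.FiniteIndex ∧ ∀ x ∈ H, ∃ hx : x ∈ Δ0, ∀ j, a ⟨x, hx⟩ j = 1 := by
  have : NeZero m := ⟨hm.ne'⟩
  have ha1 : ∀ j, a 1 j = 1 := fun j => by
    have h1 := ha 1 1 j
    rw [mul_one] at h1
    have h0 : a 1 j ≠ 0 := fun h0 => by
      have h2 := h 1 j
      rw [h0, zero_pow hm.ne'] at h2
      exact zero_ne_one h2
    exact (mul_eq_left₀ h0).1 h1.symm
  let u : Δ0 →* (B → rootsOfUnity m ℂ) :=
    { toFun := fun γ j => rootsOfUnity.mkOfPowEq (a γ j) (h γ j)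
      map_one' := by
        funext j
        ext
        simp [ha1]
      map_mul' := fun γ δ => by
        funext j
        ext
        simp [ha] }
  have h1 : u.ker.FiniteIndex := by
    infer_instance
  refine ⟨u.ker.map Δ0.subtype, ?_, ?_⟩
  · refine ⟨?_⟩
    rw [Subgroup.index_map_subtype]
    exact mul_ne_zero h1.index_ne_zero hfi.index_ne_zero
  · rintro _ ⟨γ, hγ, rfl⟩
    refine ⟨γ.2, fun j => ?_⟩
    have h2 := congrFun (MonoidHom.mem_ker.1 hγ) j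
    have h3 := congrArg (fun x : rootsOfUnity m ℂ => ((x : ℂˣ) : ℂ)) h2
    simpa [u] using h3

end Pool.Agent.H906.BD.S
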