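import Pool.Agent.H906.BD.S.Base
import Pool.Agent.H906.BD.S.Jets
import Pool.Agent.H906.BD.Contra

/-! # S06 Sheaf: quotients of `D × ℂ^b` with `dim D > 0` are not special

The imported files `S/Base.lean`, `S/Jets.lean` contain statements proved by others (`exists_generic`,
`poincare_jets`).
Proof. Let `z₀` be from `exists_generic` and `l`, `f₀`, `f i` from `poincare_jets` (`A = Fin a`). Take `p = a`, `m = l`,
`ω x = (Matrix.detRowAlternating).compLinearMap (prA as a linear map)` for all `x`, so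
`ω x v = det (v i (inl j))_{ij}`, `s 0 x v = f₀ (prA x) * ∏_k ω x (v k)`, `s (i+1) x v = f i (prA x) * ∏_k ω x (v k)`.
Invariance: `prA (fderiv ℂ (ρ δ) x u) = fderiv ℂ (σ δ) (prA x) (prA u)` for `x ∈ Tot D B` (differentiate
`prA (ρ δ x) = σ δ (prA x)`; see the proof of `jac_det` in `BD/Final.lean`), so
`ω (fderiv ℂ (ρ δ) x ∘ v) = det (Jac (σ δ) (prA x)) * ω v` (`LinearMap.det` of the map `fderiv ℂ (σ δ) (prA x)`:
`AlternatingMap.map_linearMap_det`-like statements, or `Matrix.det_mul`). Holomorphic in `x`: clear.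
At `x₀ = Sum.elim z₀ 0`, `v₀ k i = Pi.single (inl i) 1`: `ω x₀ (v₀ k) = 1`, the quotient
`s (i+1) x v₀ / s 0 x v₀ = f i (prA x) / f₀ (prA x)`, whose derivative at `x₀` is `fderiv ℂ (f i / f₀) z₀ ∘ prA`; linear
independence: a relation `∑ λ_i d(f i / f₀)(z₀) = 0` evaluated at the basis vectors gives `λ` times the matrix of
`poincare_jets` equal zero. -/

set_option linter.unusedSectionVars false

open Filter Topology Set Metric

namespace Pool.Agent.H906.BD.S

variable {a : ℕ} {B : Type*} [Fintype B] [DecidableEq B]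
variable {Δ : Type*} [Group Δ]

/-- the derivative of the projection of the action -/
theorem ssheaf_prA_fderiv {D : Set (Fin a → ℂ)} (hD : IsOpen D)
    {ρ : Δ → (Fin a ⊕ B → ℂ) → (Fin a ⊕ B → ℂ)} (hρ : HolAct (Tot D B) ρ)
    {σ : Δ → (Fin a → ℂ) → (Fin a → ℂ)} (hσ : HolAct D σ)
    (hρσ : ∀ δ, ∀ x ∈ Tot D B, prA (ρ δ x) = σ δ (prA x)) (δ : Δ) {x : Fin a ⊕ B → ℂ}
    (hx : x ∈ Tot D B) (v : Fin a ⊕ B → ℂ) :
    prA (fderiv ℂ (ρ δ) x v) = fderiv ℂ (σ δ) (prA x) (prA v) := by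
  have hU : IsOpen (Tot D B) := isOpen_tot hD
  have hd : DifferentiableAt ℂ (ρ δ) x := (hρ.hol δ).differentiableAt (hU.mem_nhds hx)
  have hs : HasFDerivAt (σ δ) (fderiv ℂ (σ δ) (prA x)) (prA x) :=
    ((hσ.hol δ).differentiableAt (hD.mem_nhds hx)).hasFDerivAt
  have e1 : HasFDerivAt (fun y => prAL (A := Fin a) (B := B) (ρ δ y))
      ((prAL (A := Fin a) (B := B)).comp (fderiv ℂ (ρ δ) x)) x :=
    (prAL (A := Fin a) (B := B)).hasFDerivAt.comp x hd.hasFDerivAt
  have e2 : HasFDerivAt (fun y => σ δ (prA y))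
      ((fderiv ℂ (σ δ) (prA x)).comp (prAL (A := Fin a) (B := B))) x :=
    hs.comp x (prAL (A := Fin a) (B := B)).hasFDerivAt
  have e3 : (fun y => σ δ (prA y)) =ᶠ[𝓝 x] fun y => prAL (A := Fin a) (B := B) (ρ δ y) := by
    filter_upwards [hU.mem_nhds hx] with y hy
    rw [← hρσ δ y hy]
    rfl
  have e4 := e1.unique (e2.congr_of_eventuallyEq e3.symm)
  exact congrArg (fun T => T v) e4

/-- the alternating form -/
noncomputable def ssheafForm (a : ℕ) (B : Type*) : (Fin a ⊕ B → ℂ) [⋀^Fin a]→ₗ[ℂ] ℂ :=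
  (Matrix.detRowAlternating (n := Fin a) (R := ℂ)).compLinearMap
    (prAL (A := Fin a) (B := B)).toLinearMap

theorem ssheafForm_apply (v : Fin a → (Fin a ⊕ B → ℂ)) :
    ssheafForm a B v = (Matrix.of fun i => prA (v i)).det := rfl

theorem ssheaf_jac {σ : (Fin a → ℂ) → (Fin a → ℂ)} (z w : Fin a → ℂ) :
    fderiv ℂ σ z w = (Jac σ z).mulVec w := by
  have h1 : w = ∑ j, w j • (Pi.single j (1 : ℂ) : Fin a → ℂ) := pi_eq_sum_univ' w
  conv_lhs => rw [h1]
  rw [map_sum]
  funext i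
  rw [Finset.sum_apply]
  unfold Matrix.mulVec dotProduct
  refine Finset.sum_congr rfl fun j _ => ?_
  rw [map_smul, Pi.smul_apply, smul_eq_mul, mul_comm]
  rfl

/-- the transformation of the form -/
theorem ssheaf_trans {D : Set (Fin a → ℂ)} (hD : IsOpen D)
    {ρ : Δ → (Fin a ⊕ B → ℂ) → (Fin a ⊕ B → ℂ)} (hρ : HolAct (Tot D B) ρ)
    {σ : Δ → (Fin a → ℂ) → (Fin a → ℂ)} (hσ : HolAct D σ)
    (hρσ : ∀ δ, ∀ x ∈ Tot D B, prA (ρ δ x) = σ δ (prA x)) (δ : Δ) {x : Fin a ⊕ B → ℂ}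
    (hx : x ∈ Tot D B) (v : Fin a → (Fin a ⊕ B → ℂ)) :
    ssheafForm a B (fun i => fderiv ℂ (ρ δ) x (v i)) =
      (Jac (σ δ) (prA x)).det * ssheafForm a B v := by
  rw [ssheafForm_apply, ssheafForm_apply]
  have h1 : (Matrix.of fun i => prA (fderiv ℂ (ρ δ) x (v i))) =
      (Matrix.of fun i => prA (v i)) * (Jac (σ δ) (prA x)).transpose := by
    ext i j
    rw [Matrix.mul_apply, Matrix.of_apply, ssheaf_prA_fderiv hD hρ hσ hρσ δ hx, ssheaf_jac]
    unfold Matrix.mulVec dotProduct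
    refine Finset.sum_congr rfl fun m _ => ?_
    rw [Matrix.transpose_apply, Matrix.of_apply, mul_comm]
  rw [h1, Matrix.det_mul, Matrix.det_transpose, mul_comm]

theorem has_sheaf (ha : 1 ≤ a) {D : Set (Fin a → ℂ)} (hD : IsOpen D) (hc : IsPreconnected D)
    (hne : D.Nonempty) {R : ℝ} (hR : ∀ z ∈ D, ‖z‖ ≤ R)
    {ρ : Δ → (Fin a ⊕ B → ℂ) → (Fin a ⊕ B → ℂ)} (hρ : HolAct (Tot D B) ρ)
    {σ : Δ → (Fin a → ℂ) → (Fin a → ℂ)} (hσ : HolAct D σ)
    (hρσ : ∀ δ, ∀ x ∈ Tot D B, prA (ρ δ x) = σ δ (prA x))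
    (hdisc : ∀ K ⊆ D, IsCompact K → ∃ T : Finset Δ, ∀ γ, (∃ z ∈ K, σ γ z ∈ K) →
      ∃ t ∈ T, ∀ z ∈ D, σ γ z = σ t z) : HasBogomolovSheaf (Tot D B) ρ a := by
  classical
  obtain ⟨z₀, hz₀, hgen⟩ := exists_generic hD hc hne hσ hdisc
  obtain ⟨l, hl, f₀, f, hf₀, hf, hf₀i, hfi, hf₀z, hdet⟩ :=
    poincare_jets hD hR hσ hdisc hz₀ hgen
  let F : Fin (a + 1) → (Fin a → ℂ) → ℂ := Fin.cons f₀ f
  have hF0 : F 0 = f₀ := rfl
  have hFs : ∀ i : Fin a, F i.succ = f i := fun i => rfl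
  have hFd : ∀ i, DifferentiableOn ℂ (F i) D := by
    intro i
    refine Fin.cases ?_ (fun j => ?_) i
    · exact hf₀
    · exact hf j
  have hFi : ∀ i δ, ∀ z ∈ D, F i (σ δ z) * (Jac (σ δ) z).det ^ l = F i z := by
    intro i
    refine Fin.cases ?_ (fun j => ?_) i
    · exact hf₀i
    · exact hfi j
  refine ⟨ha, l, hl, fun i x v => F i (prA x) * ∏ k, ssheafForm a B (v k),
    fun i x => F i (prA x), fun _ => ssheafForm a B, fun i => ⟨fun v => ?_, fun δ x hx v => ?_⟩,
    fun i x _ v => rfl, ?_⟩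
  · have h1 : DifferentiableOn ℂ (fun x : Fin a ⊕ B → ℂ => F i (prA x)) (Tot D B) :=
      (hFd i).comp (prAL (A := Fin a) (B := B)).differentiable.differentiableOn fun x hx => hx
    exact h1.mul_const _
  · show F i (prA (ρ δ x)) * ∏ k, ssheafForm a B (fun i => fderiv ℂ (ρ δ) x (v k i)) =
      F i (prA x) * ∏ k, ssheafForm a B (v k)
    have h1 : ∀ k, ssheafForm a B (fun i => fderiv ℂ (ρ δ) x (v k i)) =
        (Jac (σ δ) (prA x)).det * ssheafForm a B (v k) := fun k =>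
      ssheaf_trans hD hρ hσ hρσ δ hx (v k)
    rw [Finset.prod_congr rfl fun k _ => h1 k, Finset.prod_mul_distrib, Finset.prod_const,
      Finset.card_univ, Fintype.card_fin, hρσ δ x hx, ← mul_assoc, hFi i δ (prA x) hx]
  · let x₀ : Fin a ⊕ B → ℂ := Sum.elim z₀ 0
    let v₀ : Fin l → Fin a → (Fin a ⊕ B → ℂ) := fun _ i => Pi.single (Sum.inl i) 1
    have hx₀ : prA x₀ = z₀ := rfl
    have hv₀ : ∀ k, ssheafForm a B (v₀ k) = 1 := by
      intro k
      rw [ssheafForm_apply]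
      have h1 : (Matrix.of fun i => prA (v₀ k i)) = (1 : Matrix (Fin a) (Fin a) ℂ) := by
        ext i j
        rw [Matrix.of_apply, Matrix.one_apply]
        show (Pi.single (Sum.inl i) 1 : Fin a ⊕ B → ℂ) (Sum.inl j) = _
        rw [Pi.single_apply]
        by_cases h : i = j
        · rw [h]
          simp
        · have : (Sum.inl j : Fin a ⊕ B) ≠ Sum.inl i := fun h' => h (Sum.inl_injective h').symm
          rw [if_neg this, if_neg h]
      rw [h1, Matrix.det_one]
    have hprod : ∏ k, ssheafForm a B (v₀ k) = 1 := by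
      rw [Finset.prod_congr rfl fun k _ => hv₀ k, Finset.prod_const_one]
    refine ⟨x₀, hz₀, v₀, ?_, ?_⟩
    · show F 0 (prA x₀) * ∏ k, ssheafForm a B (v₀ k) ≠ 0
      rw [hprod, mul_one, hF0, hx₀]
      exact hf₀z
    · have hfd : ∀ i : Fin a, HasFDerivAt
          (fun x : Fin a ⊕ B → ℂ => (F i.succ (prA x) * ∏ k, ssheafForm a B (v₀ k)) /
            (F 0 (prA x) * ∏ k, ssheafForm a B (v₀ k)))
          ((fderiv ℂ (fun z => f i z / f₀ z) z₀).comp (prAL (A := Fin a) (B := B))) x₀ := by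
        intro i
        have h1 : DifferentiableAt ℂ (fun z => f i z / f₀ z) z₀ := by
          simp only [div_eq_mul_inv]
          exact ((hf i).differentiableAt (hD.mem_nhds hz₀)).mul
            ((hf₀.differentiableAt (hD.mem_nhds hz₀)).inv hf₀z)
        have h2 : HasFDerivAt (fun z => f i z / f₀ z) (fderiv ℂ (fun z => f i z / f₀ z) z₀)
            (prAL (A := Fin a) (B := B) x₀) := h1.hasFDerivAt
        have h3 := h2.comp x₀ (prAL (A := Fin a) (B := B)).hasFDerivAt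
        have h4 : (fun x : Fin a ⊕ B → ℂ => (F i.succ (prA x) * ∏ k, ssheafForm a B (v₀ k)) /
            (F 0 (prA x) * ∏ k, ssheafForm a B (v₀ k))) =
            (fun z => f i z / f₀ z) ∘ (prAL (A := Fin a) (B := B)) := by
          funext x
          rw [hprod, mul_one, mul_one]
          rfl
        rw [h4]
        exact h3
      rw [Fintype.linearIndependent_iff]
      intro g hg
      have h1 : Matrix.vecMul g
          (Matrix.of fun i j => fderiv ℂ (fun z => f i z / f₀ z) z₀ (Pi.single j 1)) = 0 := by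
        funext j
        have h2 := congrArg (fun T : (Fin a ⊕ B → ℂ) →L[ℂ] ℂ =>
          T (Pi.single (Sum.inl j) 1)) hg
        have h3 : prA (Pi.single (Sum.inl j) 1 : Fin a ⊕ B → ℂ) =
            (Pi.single j 1 : Fin a → ℂ) := by
          funext i
          show (Pi.single (Sum.inl j) 1 : Fin a ⊕ B → ℂ) (Sum.inl i) = _
          rw [Pi.single_apply, Pi.single_apply]
          by_cases h : i = j
          · rw [h]
            simp
          · have : (Sum.inl i : Fin a ⊕ B) ≠ Sum.inl j := fun h' => h (Sum.inl_injective h')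
            rw [if_neg this, if_neg h]
        have h4 : ∀ i : Fin a, (fderiv ℂ (fun x : Fin a ⊕ B → ℂ =>
            (F i.succ (prA x) * ∏ k, ssheafForm a B (v₀ k)) /
            (F 0 (prA x) * ∏ k, ssheafForm a B (v₀ k))) x₀) (Pi.single (Sum.inl j) 1) =
            fderiv ℂ (fun z => f i z / f₀ z) z₀ (Pi.single j 1) := by
          intro i
          rw [(hfd i).fderiv, ContinuousLinearMap.comp_apply, prAL_apply, h3]
        simp only [sum_apply, smul_apply, zero_apply, smul_eq_mul] at h2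
        unfold Matrix.vecMul dotProduct
        simp only [Matrix.of_apply, Pi.zero_apply]
        rw [← h2]
        refine Finset.sum_congr rfl fun i _ => ?_
        rw [← h4 i]
      exact fun i => congrFun (Matrix.eq_zero_of_vecMul_eq_zero hdet h1) i

end Pool.Agent.H906.BD.S
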