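import Pool.Agent.H906.BD.S.Base
import Pool.Agent.H906.BD.S.Dense
import Pool.Agent.H906.BD.S.Torus
import Pool.Agent.H906.BD.S.Fibres
import Pool.Agent.H906.BD.S.Sheaf
import Pool.Agent.H906.BD.S.Lattice
import Pool.Agent.H906.BD.Final

/-! # The structure of compact Kähler quotients of `D × ℂ^B` and its consequences -/

set_option linter.unusedSectionVars false

open Filter Topology Set Metric
open scoped ComplexOrder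

namespace Pool.Agent.H906.BD.S

section Structure

variable {A B : Type*} [Fintype A] [Fintype B] [DecidableEq A] [DecidableEq B]

/-- the structure of compact Kähler quotients of `D × ℂ^B` -/
theorem structure_thm {Δ : Type*} [Group Δ] {D : Set (A → ℂ)} (hD : IsOpen D)
    (hc : IsPreconnected D) (hne : D.Nonempty) {R : ℝ} (hR : ∀ z ∈ D, ‖z‖ ≤ R)
    {ρ : Δ → (A ⊕ B → ℂ) → (A ⊕ B → ℂ)} (hρ : HolAct (Tot D B) ρ) (hpd : PD (Tot D B) ρ)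
    (hcc : CC (Tot D B) ρ) {Δ0 : Subgroup Δ} (hfi : Δ0.FiniteIndex)
    (hs1 : ∀ γ ∈ Δ0, ∀ x ∈ Tot D B, ∀ j i, Jac (ρ γ) x (Sum.inr j) (Sum.inl i) = 0)
    (hs2 : ∀ γ ∈ Δ0, ∀ x ∈ Tot D B, ∀ j j', j ≠ j' →
      Jac (ρ γ) x (Sum.inr j) (Sum.inr j') = 0)
    {g : (A ⊕ B → ℂ) → Matrix (A ⊕ B) (A ⊕ B) ℂ} (hg : Kahler (Tot D B) g)
    (hinv : InvForm (Tot D B) ρ g) :
    (∃ σ : Δ → (A → ℂ) → (A → ℂ), HolAct D σ ∧
      (∀ δ, ∀ x ∈ Tot D B, prA (ρ δ x) = σ δ (prA x)) ∧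
      ∀ K ⊆ D, IsCompact K → ∃ T : Finset Δ, ∀ γ, (∃ z ∈ K, σ γ z ∈ K) →
        ∃ t ∈ T, ∀ z ∈ D, σ γ z = σ t z) ∧
    (∃ L : AddSubgroup (B → ℂ), IsLattice L ∧
      ∀ v ∈ L, ∃ δ, ∀ x ∈ Tot D B, ρ δ x = Sum.elim (prA x) (prB x + v)) ∧
    (IsEmpty A → ∃ H : Subgroup Δ, H.FiniteIndex ∧
      ∀ δ ∈ H, ∃ v, ∀ x ∈ Tot D B, ρ δ x = Sum.elim (prA x) (prB x + v)) := by
  have hρ0 : HolAct (Tot D B) (fun δ : Δ0 => ρ δ) :=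
    ⟨fun γ => hρ.maps γ, hρ.one, fun γ δ => hρ.mul γ δ, fun γ => hρ.hol γ⟩
  have hpd0 : PD (Tot D B) (fun δ : Δ0 => ρ δ) := by
    intro K hK hKc
    exact (hpd K hK hKc).preimage (f := fun δ : Δ0 => (δ : Δ)) Subtype.val_injective.injOn
  have hcc0 : CC (Tot D B) (fun δ : Δ0 => ρ δ) := by
    obtain ⟨K, hK, hKc, hcov⟩ := hcc
    have := hfi
    refine ⟨⋃ q : Δ ⧸ Δ0, ρ (q.out)⁻¹ '' K, ?_, ?_, ?_⟩
    · refine Set.iUnion_subset fun q => ?_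
      rintro _ ⟨x, hx, rfl⟩
      exact hρ.maps _ x (hK hx)
    · exact isCompact_iUnion fun q => hKc.image_of_continuousOn
        (((hρ.hol _).continuousOn).mono hK)
    · intro x hx
      obtain ⟨δ, hδ⟩ := hcov x hx
      have h1 : ((δ : Δ ⧸ Δ0).out)⁻¹ * δ ∈ Δ0 := by
        rw [← QuotientGroup.eq]; simp
      refine ⟨⟨_, h1⟩, ?_⟩
      show ρ (((δ : Δ ⧸ Δ0).out)⁻¹ * δ) x ∈ _
      rw [hρ.mul _ _ x hx]
      exact Set.mem_iUnion.2 ⟨(δ : Δ ⧸ Δ0), ⟨_, hδ, rfl⟩⟩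
  have hinv0 : InvForm (Tot D B) (fun δ : Δ0 => ρ δ) g := fun γ => hinv γ
  obtain ⟨σ0, a, b, h, ha, ha0⟩ := split_structure hD hc hne hR hρ0
    (fun γ => hs1 γ γ.2) (fun γ => hs2 γ γ.2)
  have hdisc := disc hD hc hne hR h ha ha0 hpd0 hcc0 hg hinv0
  have hccD : ∃ K ⊆ D, IsCompact K ∧ ∀ z ∈ D, ∃ γ, σ0 γ z ∈ K := by
    obtain ⟨K, hK, hKc, hcov⟩ := hcc0
    refine ⟨prA '' K, ?_, hKc.image continuous_prA, fun z hz => ?_⟩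
    · rintro _ ⟨y, hy, rfl⟩
      exact hK hy
    · obtain ⟨γ, hγ⟩ := hcov (Sum.elim z 0) hz
      refine ⟨γ, ρ γ (Sum.elim z 0), hγ, ?_⟩
      rw [h.fst γ _ hz]
      rfl
  have hpdD : ∀ K ⊆ D, IsCompact K → ∃ T : Finset Δ0, ∀ γ, (∃ z ∈ K, σ0 γ z ∈ K) →
      ∃ t ∈ T, ∀ z ∈ D, σ0 γ z = σ0 t z := fun K hK hKc =>
    pd_of_disc hD hc hR h.base hccD hdisc hK hKc
  obtain ⟨σ, hσ, hρσ⟩ := base_action hD hR hρ
  have hσσ : ∀ γ : Δ0, ∀ z ∈ D, σ γ z = σ0 γ z := by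
    intro γ z hz
    have hx : (Sum.elim z 0 : A ⊕ B → ℂ) ∈ Tot D B := hz
    have h1 := hρσ γ _ hx
    rw [h.fst γ _ hx] at h1
    exact h1.symm
  have hpd1 := pd_extend hD hσ hfi fun K hK hKc => by
    obtain ⟨T, hT⟩ := hpdD K hK hKc
    refine ⟨T.map (Function.Embedding.subtype _), ?_⟩
    rintro γ hγ ⟨z, hz, hz'⟩
    obtain ⟨t, ht, htt⟩ := hT ⟨γ, hγ⟩ ⟨z, hz, by rw [← hσσ ⟨γ, hγ⟩ z (hK hz)]; exact hz'⟩
    refine ⟨t, Finset.mem_map.2 ⟨t, ht, rfl⟩, fun z hz => ?_⟩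
    rw [hσσ t z hz, ← htt z hz, ← hσσ ⟨γ, hγ⟩ z hz]
  obtain ⟨⟨L, hL, hLb⟩, m, hm, hm1⟩ := exists_lattice hD hne h ha ha0 hpd0 hcc0 hg hinv0 hpdD
  have htr : ∀ γ : Δ0, Triv D σ0 γ → (∀ j, a γ j = 1) → ∀ x ∈ Tot D B,
      ρ γ x = Sum.elim (prA x) (prB x + b γ) := by
    intro γ h1 h2 x hx
    funext k
    rcases k with i | j
    · have h3 := congrFun (h.fst γ x hx) i
      rw [h1 _ hx] at h3
      exact h3
    · have h3 := h.snd γ x hx j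
      rw [h2 j, one_mul] at h3
      exact h3
  refine ⟨⟨σ, hσ, hρσ, hpd1⟩, ⟨L, hL, fun v hv => ?_⟩, fun hA => ?_⟩
  · obtain ⟨γ, h1, h2, h3⟩ := hLb v hv
    refine ⟨γ, fun x hx => ?_⟩
    rw [htr γ h1 h2 x hx]
    congr 2
    funext j
    exact h3 j
  · have htriv : ∀ γ : Δ0, Triv D σ0 γ := fun γ z _ => Subsingleton.elim _ _
    obtain ⟨H, hH, hH1⟩ := finite_index_kernel hfi ha hm fun γ j => hm1 γ (htriv γ) j
    refine ⟨H, hH, fun δ hδ => ?_⟩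
    obtain ⟨hx, h1⟩ := hH1 δ hδ
    exact ⟨b ⟨δ, hx⟩, fun x hx' => htr ⟨δ, hx⟩ (htriv _) h1 x hx'⟩

end Structure

end Pool.Agent.H906.BD.S
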