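import Pool.Agent.H906.BD.S.Main

/-! # Special, Brody-special and h-special quotients of `D × ℂ^b`; entire curves and tori -/

set_option linter.unusedSectionVars false

open Filter Topology Set Metric
open scoped ComplexOrder

namespace Pool.Agent.H906.BD.S

theorem tot_eq_univ {B : Type*} {D : Set (Fin 0 → ℂ)} (hne : D.Nonempty) :
    Tot D B = univ := by
  obtain ⟨z, hz⟩ := hne
  refine eq_univ_of_forall fun x => ?_
  show prA x ∈ D
  rw [Subsingleton.elim (prA x) z]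
  exact hz

/-- the second component, as a linear equivalence if the first component is zero dimensional -/
def prBE (B : Type*) : (Fin 0 ⊕ B → ℂ) ≃ₗ[ℝ] (B → ℂ) where
  toFun := prB
  map_add' _ _ := rfl
  map_smul' _ _ := rfl
  invFun w := Sum.elim (fun i => i.elim0) w
  left_inv x := by
    funext k
    rcases k with i | j
    · exact i.elim0
    · rfl
  right_inv _ := rfl

theorem lattice_zero {B : Type*} [Fintype B] {L : AddSubgroup (B → ℂ)} (hL : IsLattice L) :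
    IsLattice (L.comap (prBE B : (Fin 0 ⊕ B → ℂ) →+ (B → ℂ))) := by
  refine ⟨fun r => ?_, ?_⟩
  · refine ((hL.discrete r).image (prBE B).symm).subset ?_
    rintro v ⟨hv, hr⟩
    refine ⟨prBE B v, ⟨hv, le_trans ?_ hr⟩, (prBE B).symm_apply_apply v⟩
    exact (pi_norm_le_iff_of_nonneg (norm_nonneg _)).2 fun j => norm_le_pi_norm v (Sum.inr j)
  · have e1 : ((L.comap (prBE B : (Fin 0 ⊕ B → ℂ) →+ (B → ℂ)) : AddSubgroup _) :
        Set (Fin 0 ⊕ B → ℂ)) = (prBE B).symm '' (L : Set (B → ℂ)) := by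
      ext v
      constructor
      · intro hv
        exact ⟨prBE B v, hv, (prBE B).symm_apply_apply v⟩
      · rintro ⟨w, hw, rfl⟩
        show prBE B ((prBE B).symm w) ∈ L
        rw [(prBE B).apply_symm_apply]
        exact hw
    have e2 := Submodule.map_span ((prBE B).symm : (B → ℂ) →ₗ[ℝ] (Fin 0 ⊕ B → ℂ))
      (L : Set (B → ℂ))
    rw [hL.span, Submodule.map_top, LinearEquiv.range] at e2
    rw [e1]
    exact e2.symm

/-- Brody-special manifolds are h-special -/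
theorem hspecial_of_brody {N : Type*} [Fintype N] [DecidableEq N] {Δ : Type*} [Group Δ]
    {U : Set (N → ℂ)} {ρ : Δ → (N → ℂ) → (N → ℂ)} (h : IsBrodySpecial U ρ) :
    IsHSpecial U ρ := by
  obtain ⟨f, hf, hcl⟩ := h
  refine Set.Subset.antisymm (fun x hx => hx.1) fun x hx => ⟨hx, fun S _ hS' => hS' ?_⟩
  refine Relation.TransGen.single ⟨f, hf, ?_, ?_⟩
  · rw [hcl]
    exact hx.1
  · rw [hcl]
    exact hx.2

section Main

variable {a b : ℕ} {Δ : Type*} [Group Δ] {D : Set (Fin a → ℂ)} (hD : IsOpen D)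
  (hc : IsConnected D) (hR : ∃ R : ℝ, ∀ z ∈ D, ‖z‖ ≤ R)
  {ρ : Δ → (Fin a ⊕ Fin b → ℂ) → (Fin a ⊕ Fin b → ℂ)} (hρ : HolAct (Tot D (Fin b)) ρ)
  (hpd : PD (Tot D (Fin b)) ρ) (hcc : CC (Tot D (Fin b)) ρ) {Δ0 : Subgroup Δ}
  (hfi : Δ0.FiniteIndex)
  (hs1 : ∀ γ ∈ Δ0, ∀ x ∈ Tot D (Fin b), ∀ j i, Jac (ρ γ) x (Sum.inr j) (Sum.inl i) = 0)
  (hs2 : ∀ γ ∈ Δ0, ∀ x ∈ Tot D (Fin b), ∀ j j', j ≠ j' →
    Jac (ρ γ) x (Sum.inr j) (Sum.inr j') = 0)
  {g : (Fin a ⊕ Fin b → ℂ) → Matrix (Fin a ⊕ Fin b) (Fin a ⊕ Fin b) ℂ}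
  (hg : Kahler (Tot D (Fin b)) g) (hinv : InvForm (Tot D (Fin b)) ρ g)

include hD hc hR hρ hpd hcc hfi hs1 hs2 hg hinv

theorem special_iff : IsSpecial (Tot D (Fin b)) ρ ↔ a = 0 := by
  obtain ⟨R, hR⟩ := hR
  obtain ⟨⟨σ, hσ, hρσ, hdisc⟩, ⟨L, hL, hLt⟩, -⟩ :=
    structure_thm hD hc.isPreconnected hc.nonempty hR hρ hpd hcc hfi hs1 hs2 hg hinv
  constructor
  · intro hsp
    by_contra ha
    exact hsp a (has_sheaf (Nat.one_le_iff_ne_zero.2 ha) hD hc.isPreconnected hc.nonempty hR hρ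
      hσ hρσ hdisc)
  · rintro rfl
    rw [tot_eq_univ hc.nonempty]
    refine torus_special (lattice_zero hL) fun v hv => ?_
    obtain ⟨δ, hδ⟩ := hLt _ hv
    refine ⟨δ, fun x => ?_⟩
    rw [hδ x (by rw [tot_eq_univ hc.nonempty]; trivial)]
    funext k
    rcases k with i | j
    · exact i.elim0
    · rfl

theorem brody_iff : IsBrodySpecial (Tot D (Fin b)) ρ ↔ a = 0 := by
  obtain ⟨R, hR⟩ := hR
  obtain ⟨⟨σ, hσ, hρσ, hdisc⟩, -, -⟩ :=
    structure_thm hD hc.isPreconnected hc.nonempty hR hρ hpd hcc hfi hs1 hs2 hg hinv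
  constructor
  · intro hsp
    by_contra ha
    have : Nonempty (Fin a) := ⟨⟨0, Nat.pos_of_ne_zero ha⟩⟩
    exact not_brody hD hc.nonempty hR hρ hσ hρσ hdisc hsp
  · rintro rfl
    rw [tot_eq_univ hc.nonempty]
    obtain ⟨f, hf, hd⟩ := exists_dense_curve (Fin 0 ⊕ Fin b)
    exact torus_brody hf hd

theorem hspecial_iff : IsHSpecial (Tot D (Fin b)) ρ ↔ a = 0 := by
  constructor
  · obtain ⟨R, hR⟩ := hR
    obtain ⟨⟨σ, hσ, hρσ, hdisc⟩, -, -⟩ :=
      structure_thm hD hc.isPreconnected hc.nonempty hR hρ hpd hcc hfi hs1 hs2 hg hinv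
    intro hsp
    by_contra ha
    have : Nonempty (Fin a) := ⟨⟨0, Nat.pos_of_ne_zero ha⟩⟩
    exact not_hspecial hD hc.nonempty hR hρ hσ hρσ hdisc hsp
  · intro h
    exact hspecial_of_brody
      ((brody_iff hD hc hR hρ hpd hcc hfi hs1 hs2 hg hinv).2 h)

theorem virtually_abelian (ha : a = 0) (hfree : ∀ δ, ∀ x ∈ Tot D (Fin b), ρ δ x = x → δ = 1) :
    ∃ H : Subgroup Δ, H.FiniteIndex ∧ ∀ x ∈ H, ∀ y ∈ H, x * y = y * x := by
  subst ha
  obtain ⟨R, hR⟩ := hR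
  obtain ⟨-, -, h3⟩ :=
    structure_thm hD hc.isPreconnected hc.nonempty hR hρ hpd hcc hfi hs1 hs2 hg hinv
  obtain ⟨H, hH, hH1⟩ := h3 inferInstance
  refine ⟨H, hH, fun x hx y hy => ?_⟩
  obtain ⟨v, hv⟩ := hH1 x hx
  obtain ⟨w, hw⟩ := hH1 y hy
  obtain ⟨z, hz⟩ := hc.nonempty
  obtain ⟨p, hp⟩ : ∃ p : Fin 0 ⊕ Fin b → ℂ, p ∈ Tot D (Fin b) := ⟨Sum.elim z 0, hz⟩
  have huniv := tot_eq_univ (B := Fin b) hc.nonempty
  have hall : ∀ q : Fin 0 ⊕ Fin b → ℂ, q ∈ Tot D (Fin b) := fun q => by rw [huniv]; trivial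
  have h1 : ρ (x * y) p = ρ (y * x) p := by
    rw [hρ.mul _ _ _ (hall _), hρ.mul _ _ _ (hall _), hw _ (hall _), hv _ (hall _),
      hv _ (hall _), hw _ (hall _)]
    funext k
    rcases k with i | j
    · exact i.elim0
    · show prB p j + w j + v j = prB p j + v j + w j
      ring
  have h2 : ρ ((y * x)⁻¹ * (x * y)) p = p := by
    rw [hρ.mul _ _ _ (hall _), h1, ← hρ.mul _ _ _ (hall _), inv_mul_cancel, hρ.one _ (hall _)]
  have h3 := hfree _ p (hall _) h2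
  rw [inv_mul_eq_one] at h3
  exact h3.symm

/-- every entire curve factors through a torus; if all maps from tori are constant, `X` has no
entire curves -/
theorem entire_torus :
    (∀ f, IsEntire (Tot D (Fin b)) f → ∃ (L : AddSubgroup (Fin b → ℂ))
      (F : (Fin b → ℂ) → (Fin a ⊕ Fin b → ℂ)) (h : ℂ → (Fin b → ℂ)),
      IsTorusMap (Tot D (Fin b)) ρ L F ∧ Differentiable ℂ h ∧ ∀ t, f t = F (h t)) ∧
    ∀ x ∈ Tot D (Fin b), ∃ (L : AddSubgroup (Fin b → ℂ))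
      (F : (Fin b → ℂ) → (Fin a ⊕ Fin b → ℂ)), IsTorusMap (Tot D (Fin b)) ρ L F ∧ F 0 = x ∧
      Function.Injective F := by
  obtain ⟨R, hR⟩ := hR
  obtain ⟨-, ⟨L, hL, hLt⟩, -⟩ :=
    structure_thm hD hc.isPreconnected hc.nonempty hR hρ hpd hcc hfi hs1 hs2 hg hinv
  have hT : ∀ z ∈ D, ∀ w₀ : Fin b → ℂ, IsTorusMap (Tot D (Fin b)) ρ L
      (fun w => Sum.elim z (w₀ + w)) := by
    intro z hz w₀
    refine ⟨hL, ?_, fun w => hz, fun v hv => ?_⟩
    · rw [differentiable_pi]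
      rintro (i | j)
      · exact differentiable_const _
      · exact (differentiable_const _).add (differentiable_apply j)
    · obtain ⟨δ, hδ⟩ := hLt v hv
      refine ⟨δ, fun w => ?_⟩
      rw [hδ _ hz]
      funext k
      rcases k with i | j
      · rfl
      · show w₀ j + (w j + v j) = w₀ j + w j + v j
        ring
  refine ⟨fun f hf => ?_, fun x hx => ?_⟩
  · have h1 := entire_fibre hR hf
    refine ⟨L, fun w => Sum.elim (prA (f 0)) (0 + w), fun t => prB (f t), hT _ (hf.2 0) 0, ?_, ?_⟩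
    · rw [differentiable_pi]
      intro j
      exact (differentiable_pi.1 hf.1) (Sum.inr j)
    · intro t
      show f t = Sum.elim (prA (f 0)) (0 + prB (f t))
      rw [zero_add, ← h1 t]
      exact (elim_pr (f t)).symm
  · refine ⟨L, fun w => Sum.elim (prA x) (prB x + w), hT _ hx _, ?_, ?_⟩
    · show Sum.elim (prA x) (prB x + 0) = x
      rw [add_zero]
      exact elim_pr x
    · intro v w hvw
      funext j
      have h1 := congrFun hvw (Sum.inr j)
      exact add_left_cancel h1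

end Main

end Pool.Agent.H906.BD.S
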